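import Pool.Agent.N555.MQ.Quad

/-!
# The isotropic heat flow with measurable multipliers

`P F` is a pair of linear functions of the matrix `F`. The energy decreases along the heat flow if
the second derivative of `W` has a certificate which consists of an exact two-form `dθ` and a
measurable multiple of the two-form `dp₀ ∧ dp₁`, `p = P (F₀ + Du)`.
-/

set_option autoImplicit false

open MeasureTheory Set Filter Topology

namespace Pool.Agent.U515.MR

open Pool.Agent.W779.Morrey Pool.Agent.N555.MQ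

/-- the area form of the images -/
def ar (P : E →L[ℝ] V) (G₀ G₁ : E) : ℝ := P G₀ 0 * P G₁ 1 - P G₁ 0 * P G₀ 1

section fam

variable {ι : Type*} [Fintype ι]

theorem pmap_P (P : E →L[ℝ] V) (F₀ : E) (k : ι → Fin 2 → ℤ) (A B : ι → E) (s : ℝ) :
    PMap (fun x => P (F₀ + Fam k A B s x))
      (fun r l x => P (Fam k (dA k B l) (dB k A l) s x) r)
      (fun r l m x => P (Fam k (dA k (dB k A l) m) (dB k (dA k B l) m) s x) r) where
  d1 := by
    intro r x
    have h := (hasFDerivAt_Fam k A B s x).const_add F₀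
    have h1 := ((ContinuousLinearMap.proj (R := ℝ) (φ := fun _ : Fin 2 => ℝ) r).comp
      P).hasFDerivAt.comp x h
    refine h1.congr_fderiv ?_
    ext v
    simp [mk', Fin.sum_univ_two]
  d2 := by
    intro r l x
    have h := hasFDerivAt_Fam k (dA k B l) (dB k A l) s x
    have h1 := ((ContinuousLinearMap.proj (R := ℝ) (φ := fun _ : Fin 2 => ℝ) r).comp
      P).hasFDerivAt.comp x h
    refine h1.congr_fderiv ?_
    ext v
    simp [mk', Fin.sum_univ_two]
  c2 := by
    intro r l m
    exact (continuous_apply r).comp (P.continuous.comp (continuous_Fam k _ _ s))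
  symm := by
    intro r x
    have e1 : dA k (dB k A 0) 1 = dA k (dB k A 1) 0 := by
      funext i
      simp only [dA, dB, smul_neg, smul_smul]
      ring_nf
    have e2 : dB k (dA k B 0) 1 = dB k (dA k B 1) 0 := by
      funext i
      simp only [dA, dB, smul_smul]
      ring_nf
    simp only [e1, e2]
  pp := by
    intro i x
    simp only [Fam_periodic]
  pJ := by
    intro r l i x
    simp only [Fam_periodic]

/-- The certificate with a measurable multiplier. -/
def MCert (W : E → ℝ) (θ : E → E →L[ℝ] ℝ) (P : E →L[ℝ] V) (ℓ : V → ℝ) : Prop :=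
  ∀ F G₀ G₁ : E, (∀ r, G₀ r 1 = G₁ r 0) →
    0 ≤ fderiv ℝ (fderiv ℝ W) F G₀ G₀ + fderiv ℝ (fderiv ℝ W) F G₁ G₁
      + (fderiv ℝ θ F G₀ G₁ - fderiv ℝ θ F G₁ G₀) + ℓ (P F) * ar P G₀ G₁

/-- **Monotonicity along the heat flow** -/
theorem flow_mono_meas {W : E → ℝ} {θ : E → E →L[ℝ] ℝ} (hW : ContDiff ℝ 2 W)
    (hθ : ContDiff ℝ 1 θ) (P : E →L[ℝ] V) {ℓ : V → ℝ} (hℓ : Measurable ℓ)
    (hb : ∀ R : ℝ, ∃ C : ℝ, ∀ v : V, ‖v‖ ≤ R → |ℓ v| ≤ C)
    (hcert : MCert W θ P ℓ) (F₀ : E) (k : ι → Fin 2 → ℤ) (c d : ι → V) :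
    W F₀ ≤ ∫ x in Icc (0 : V) 1, W (F₀ + Fam k (grk k c) (grk k d) 1 x) := by
  set A := grk k c with hA
  set B := grk k d with hB
  have hP1 : ContDiff ℝ 1 (fderiv ℝ W) := hW.fderiv_right (by norm_num)
  have hPc : Continuous (fderiv ℝ W) := hP1.continuous
  have hd : ∀ x s, HasDerivAt (fun s => W (F₀ + Fam k A B s x))
      (fderiv ℝ W (F₀ + Fam k A B s x) (dsFam k A B s x)) s := by
    intro x s
    have h1 : HasFDerivAt W (fderiv ℝ W (F₀ + Fam k A B s x)) (F₀ + Fam k A B s x) :=
      (hW.differentiable (by norm_num) _).hasFDerivAt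
    exact h1.comp_hasDerivAt s ((hasDerivAt_Fam k A B s x).const_add F₀)
  have hcont : Continuous (fun p : ℝ × V =>
      fderiv ℝ W (F₀ + Fam k A B p.1 p.2) (dsFam k A B p.1 p.2)) :=
    (hPc.comp (continuous_const.add (continuous_Fam_prod k A B))).clm_apply
      (continuous_dsFam_prod k A B)
  have hftc : ∀ x, ∫ s in (0:ℝ)..1, fderiv ℝ W (F₀ + Fam k A B s x) (dsFam k A B s x)
      = W (F₀ + Fam k A B 1 x) - W F₀ := by
    intro x
    rw [intervalIntegral.integral_eq_sub_of_hasDerivAt (fun s _ => hd x s)]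
    · rw [hA, hB, Fam_zero, add_zero]
    · refine Continuous.intervalIntegrable ?_ _ _
      exact hcont.comp (continuous_id.prodMk continuous_const)
  have hint : Integrable (Function.uncurry fun (s : ℝ) (x : V) =>
      fderiv ℝ W (F₀ + Fam k A B s x) (dsFam k A B s x))
      ((volume.restrict (Set.uIoc (0:ℝ) 1)).prod (volume.restrict (Icc (0 : V) 1))) := by
    rw [Measure.prod_restrict]
    have h1 : IntegrableOn (Function.uncurry fun (s : ℝ) (x : V) =>
      fderiv ℝ W (F₀ + Fam k A B s x) (dsFam k A B s x)) (Icc (0:ℝ) 1 ×ˢ Icc (0:V) 1)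
      (volume.prod volume) := by
      refine ContinuousOn.integrableOn_compact (isCompact_Icc.prod isCompact_Icc) ?_
      exact hcont.continuousOn
    refine h1.mono_set (Set.prod_mono ?_ le_rfl)
    rw [uIoc_of_le zero_le_one]
    exact Ioc_subset_Icc_self
  have hswap := intervalIntegral_integral_swap hint
  have hpos : 0 ≤ ∫ s in (0:ℝ)..1, ∫ x in Icc (0:V) 1,
      fderiv ℝ W (F₀ + Fam k A B s x) (dsFam k A B s x) := by
    refine intervalIntegral.integral_nonneg_of_ae_restrict zero_le_one ?_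
    rw [EventuallyLE, ae_restrict_iff' measurableSet_Icc]
    filter_upwards [Measure.ae_ne volume (0:ℝ)] with s hs0 hs
    have hs1 : 0 < s := lt_of_le_of_ne hs.1 (Ne.symm hs0)
    have hdis := dissipation hW hθ (fun x => F₀ + Fam k A B s x)
      (fun j => Fam k (dA k B j) (dB k A j) s)
      (fun j l => Fam k (dA k (dB k A j) l) (dB k (dA k B j) l) s)
      (fun x => (hasFDerivAt_Fam k A B s x).const_add F₀)
      (fun j x => hasFDerivAt_Fam k _ _ s x)
      (fun j l => continuous_Fam k _ _ s)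
      (fun x => by
        have e1 : dA k (dB k A 0) 1 = dA k (dB k A 1) 0 := by
          funext i
          simp only [dA, dB, smul_neg, smul_smul]
          ring_nf
        have e2 : dB k (dA k B 0) 1 = dB k (dA k B 1) 0 := by
          funext i
          simp only [dA, dB, smul_smul]
          ring_nf
        rw [e1, e2])
      (fun i x => by rw [Fam_periodic])
      (fun j i x => by rw [Fam_periodic])
    have hHc : Continuous (fderiv ℝ (fderiv ℝ W)) := hP1.continuous_fderiv (by norm_num)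
    have hΘc : Continuous (fderiv ℝ θ) := hθ.continuous_fderiv (by norm_num)
    have hFc : Continuous (fun x => F₀ + Fam k A B s x) :=
      continuous_const.add (continuous_Fam k A B s)
    have hGc : ∀ j, Continuous (Fam k (dA k B j) (dB k A j) s) := fun j => continuous_Fam k _ _ s
    have hG2c : ∀ j l, Continuous (Fam k (dA k (dB k A j) l) (dB k (dA k B j) l) s) :=
      fun j l => continuous_Fam k _ _ s
    have hpc : Continuous (fun x => fderiv ℝ W (F₀ + Fam k A B s x) (dsFam k A B s x)) :=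
      hcont.comp (continuous_const.prodMk continuous_id)
    have hpos2 : 0 < 4 * Real.pi ^ 2 * s := by positivity
    -- the null Lagrangian
    have hPM := pmap_P P F₀ k A B s
    have hPMc := hPM.contp
    obtain ⟨R, hR⟩ := (isCompact_Icc (a := (0 : V)) (b := 1)).exists_bound_of_continuousOn
      hPMc.continuousOn
    obtain ⟨C, hC⟩ := hb R
    have hbd : ∀ x, |(fun v => if ‖v‖ ≤ R then ℓ v else 0)
        (P (F₀ + Fam k A B s x))| ≤ |C| := by
      intro x
      simp only
      split_ifs with h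
      · exact (hC _ h).trans (le_abs_self C)
      · simp
    have hmeas : Measurable (fun v : V => if ‖v‖ ≤ R then ℓ v else 0) :=
      Measurable.ite (measurableSet_le measurable_norm measurable_const) hℓ measurable_const
    have hnull := null2 hPM hmeas |C| hbd
    have hnull2 : ∫ x in Icc (0 : V) 1, ℓ (P (F₀ + Fam k A B s x))
        * ar P (Fam k (dA k B 0) (dB k A 0) s x) (Fam k (dA k B 1) (dB k A 1) s x) = 0 := by
      rw [← hnull]
      refine setIntegral_congr_fun measurableSet_Icc fun x hx => ?_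
      change _ = (if ‖P (F₀ + Fam k A B s x)‖ ≤ R then ℓ (P (F₀ + Fam k A B s x)) else 0)
          * ar P (Fam k (dA k B 0) (dB k A 0) s x) (Fam k (dA k B 1) (dB k A 1) s x)
      rw [if_pos (hR x hx)]
    have hdJc : Continuous (fun x => ar P (Fam k (dA k B 0) (dB k A 0) s x)
        (Fam k (dA k B 1) (dB k A 1) s x)) := contdJ hPM
    have hi3 : IntegrableOn (fun x => ℓ (P (F₀ + Fam k A B s x))
        * ar P (Fam k (dA k B 0) (dB k A 0) s x) (Fam k (dA k B 1) (dB k A 1) s x))
        (Icc (0 : V) 1) := by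
      have h1 : IntegrableOn (fun x => (fun v => if ‖v‖ ≤ R then ℓ v else 0)
          (P (F₀ + Fam k A B s x))
          * ar P (Fam k (dA k B 0) (dB k A 0) s x) (Fam k (dA k B 1) (dB k A 1) s x))
          (Icc (0 : V) 1) := by
        refine Integrable.bdd_mul (c := |C|) hdJc.integrableOn_Icc ?_ (Eventually.of_forall hbd)
        exact (hmeas.comp hPMc.measurable).aestronglyMeasurable
      refine h1.congr_fun (fun x hx => ?_) measurableSet_Icc
      change (if ‖P (F₀ + Fam k A B s x)‖ ≤ R then ℓ (P (F₀ + Fam k A B s x)) else 0)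
          * ar P (Fam k (dA k B 0) (dB k A 0) s x) (Fam k (dA k B 1) (dB k A 1) s x) = _
      rw [if_pos (hR x hx)]
    -- the dissipation
    have hQc : Continuous (fun x =>
        fderiv ℝ (fderiv ℝ W) (F₀ + Fam k A B s x) (Fam k (dA k B 0) (dB k A 0) s x)
          (Fam k (dA k B 0) (dB k A 0) s x)
        + fderiv ℝ (fderiv ℝ W) (F₀ + Fam k A B s x) (Fam k (dA k B 1) (dB k A 1) s x)
          (Fam k (dA k B 1) (dB k A 1) s x)
        + (fderiv ℝ θ (F₀ + Fam k A B s x) (Fam k (dA k B 0) (dB k A 0) s x)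
          (Fam k (dA k B 1) (dB k A 1) s x)
          - fderiv ℝ θ (F₀ + Fam k A B s x) (Fam k (dA k B 1) (dB k A 1) s x)
          (Fam k (dA k B 0) (dB k A 0) s x))) := by
      refine Continuous.add (Continuous.add ?_ ?_) (Continuous.sub ?_ ?_)
      · exact ((hHc.comp hFc).clm_apply (hGc 0)).clm_apply (hGc 0)
      · exact ((hHc.comp hFc).clm_apply (hGc 1)).clm_apply (hGc 1)
      · exact ((hΘc.comp hFc).clm_apply (hGc 0)).clm_apply (hGc 1)
      · exact ((hΘc.comp hFc).clm_apply (hGc 1)).clm_apply (hGc 0)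
    have hRc : Continuous (fun x => fderiv ℝ W (F₀ + Fam k A B s x)
        (Fam k (dA k (dB k A 0) 0) (dB k (dA k B 0) 0) s x
          + Fam k (dA k (dB k A 1) 1) (dB k (dA k B 1) 1) s x)) :=
      (hPc.comp hFc).clm_apply ((hG2c 0 0).add (hG2c 1 1))
    have hQi := hQc.integrableOn_Icc (a := (0 : V)) (b := 1) (μ := volume)
    have hRi := hRc.integrableOn_Icc (a := (0 : V)) (b := 1) (μ := volume)
    have hsum := integral_add hQi hRi
    have hdis' : (∫ x in Icc (0:V) 1,
        (fderiv ℝ (fderiv ℝ W) (F₀ + Fam k A B s x) (Fam k (dA k B 0) (dB k A 0) s x)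
          (Fam k (dA k B 0) (dB k A 0) s x)
        + fderiv ℝ (fderiv ℝ W) (F₀ + Fam k A B s x) (Fam k (dA k B 1) (dB k A 1) s x)
          (Fam k (dA k B 1) (dB k A 1) s x)
        + (fderiv ℝ θ (F₀ + Fam k A B s x) (Fam k (dA k B 0) (dB k A 0) s x)
          (Fam k (dA k B 1) (dB k A 1) s x)
          - fderiv ℝ θ (F₀ + Fam k A B s x) (Fam k (dA k B 1) (dB k A 1) s x)
          (Fam k (dA k B 0) (dB k A 0) s x))))
        + ∫ x in Icc (0:V) 1, fderiv ℝ W (F₀ + Fam k A B s x)
        (Fam k (dA k (dB k A 0) 0) (dB k (dA k B 0) 0) s x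
          + Fam k (dA k (dB k A 1) 1) (dB k (dA k B 1) 1) s x) = 0 := by
      rw [← hsum]
      exact hdis
    have hnn : 0 ≤ ∫ x in Icc (0:V) 1,
        ((fderiv ℝ (fderiv ℝ W) (F₀ + Fam k A B s x) (Fam k (dA k B 0) (dB k A 0) s x)
          (Fam k (dA k B 0) (dB k A 0) s x)
        + fderiv ℝ (fderiv ℝ W) (F₀ + Fam k A B s x) (Fam k (dA k B 1) (dB k A 1) s x)
          (Fam k (dA k B 1) (dB k A 1) s x)
        + (fderiv ℝ θ (F₀ + Fam k A B s x) (Fam k (dA k B 0) (dB k A 0) s x)
          (Fam k (dA k B 1) (dB k A 1) s x)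
          - fderiv ℝ θ (F₀ + Fam k A B s x) (Fam k (dA k B 1) (dB k A 1) s x)
          (Fam k (dA k B 0) (dB k A 0) s x)))
        + ℓ (P (F₀ + Fam k A B s x))
        * ar P (Fam k (dA k B 0) (dB k A 0) s x) (Fam k (dA k B 1) (dB k A 1) s x)) := by
      refine integral_nonneg fun x => ?_
      exact hcert (F₀ + Fam k A B s x) (Fam k (dA k B 0) (dB k A 0) s x)
          (Fam k (dA k B 1) (dB k A 1) s x) (fun r => by
            simp only [Fam, Finset.sum_apply, Pi.smul_apply, tm, dA, dB, Pi.add_apply, Pi.neg_apply,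
              smul_eq_mul, hA, hB, grk]
            refine Finset.sum_congr rfl fun i _ => ?_
            ring)
    rw [integral_add hQi hi3, hnull2, add_zero] at hnn
    have hheat : ∫ x in Icc (0:V) 1, fderiv ℝ W (F₀ + Fam k A B s x)
        (Fam k (dA k (dB k A 0) 0) (dB k (dA k B 0) 0) s x
          + Fam k (dA k (dB k A 1) 1) (dB k (dA k B 1) 1) s x)
        = -(4 * Real.pi ^ 2 * s) * ∫ x in Icc (0:V) 1,
          fderiv ℝ W (F₀ + Fam k A B s x) (dsFam k A B s x) := by
      rw [← integral_const_mul]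
      refine integral_congr_ae (Eventually.of_forall fun x => ?_)
      have hh := heat k A B s x
      simp only
      rw [hh, map_smul, smul_eq_mul]
    rw [hheat] at hdis'
    simp only [Pi.zero_apply]
    by_contra hneg
    push Not at hneg
    have := mul_pos_of_neg_of_neg (neg_lt_zero.2 hpos2) hneg
    linarith
  have hfin : ∫ x in Icc (0 : V) 1, (W (F₀ + Fam k A B 1 x) - W F₀)
      = (∫ x in Icc (0 : V) 1, W (F₀ + Fam k A B 1 x)) - W F₀ := by
    rw [integral_sub]
    · simp [Measure.real]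
    · exact (hW.continuous.comp (continuous_const.add (continuous_Fam k A B 1))).integrableOn_Icc
    · exact continuous_const.integrableOn_Icc
  have hfin2 : ∫ x in Icc (0 : V) 1, (W (F₀ + Fam k A B 1 x) - W F₀)
      = ∫ s in (0:ℝ)..1, ∫ x in Icc (0:V) 1,
      fderiv ℝ W (F₀ + Fam k A B s x) (dsFam k A B s x) := by
    rw [hswap]
    exact integral_congr_ae (Eventually.of_forall fun x => (hftc x).symm)
  linarith

end fam

theorem QCtrig_of_mcert {W : E → ℝ} {θ : E → E →L[ℝ] ℝ} (hW : ContDiff ℝ 2 W)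
    (hθ : ContDiff ℝ 1 θ) (P : E →L[ℝ] V) {ℓ : V → ℝ} (hℓ : Measurable ℓ)
    (hb : ∀ R : ℝ, ∃ C : ℝ, ∀ v : V, ‖v‖ ≤ R → |ℓ v| ≤ C)
    (hcert : MCert W θ P ℓ) : QCtrig W := by
  intro ι _ F₀ k c d
  exact flow_mono_meas hW hθ P hℓ hb hcert F₀ k c d

end Pool.Agent.U515.MR
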