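import Pool.Agent.N555.MQ.Fin2

/-!
# Invariance of quasiconvexity under linear changes of the variables
-/

set_option autoImplicit false

open MeasureTheory Set Filter Topology Matrix

namespace Pool.Agent.U515.MR

open Pool.Agent.W779.Morrey Pool.Agent.N555.MQ

theorem QC_comp {W : Matrix (Fin 2) (Fin 2) ℝ → ℝ} (T N : Matrix (Fin 2) (Fin 2) ℝ)
    (hT : T.det ≠ 0) (hN : N.det ≠ 0) (h : QC W) : QC (fun F => W (T * F * N)) := by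
  rintro F₀ Ω hΩ hb ϑ ⟨K, hK⟩ h0
  have iT : Invertible T := T.invertibleOfIsUnitDet (isUnit_iff_ne_zero.2 hT)
  have iN : Invertible N := N.invertibleOfIsUnitDet (isUnit_iff_ne_zero.2 hN)
  set Tl : (Fin 2 → ℝ) ≃L[ℝ] (Fin 2 → ℝ) := (T.toLinearEquiv' iT).toContinuousLinearEquiv with hTl
  set Nl : (Fin 2 → ℝ) ≃L[ℝ] (Fin 2 → ℝ) := (N.toLinearEquiv' iN).toContinuousLinearEquiv with hNl
  have hTlv : ∀ v, Tl v = T.toLin' v := fun v => rfl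
  have hNlv : ∀ v, Nl v = N.toLin' v := fun v => rfl
  have hTm : LinearMap.toMatrix' ((Tl : (Fin 2 → ℝ) →L[ℝ] (Fin 2 → ℝ)) :
      (Fin 2 → ℝ) →ₗ[ℝ] (Fin 2 → ℝ)) = T := by
    have : ((Tl : (Fin 2 → ℝ) →L[ℝ] (Fin 2 → ℝ)) : (Fin 2 → ℝ) →ₗ[ℝ] (Fin 2 → ℝ)) = T.toLin' := by
      ext1
      rfl
    rw [this, LinearMap.toMatrix'_toLin']
  have hNm : LinearMap.toMatrix' ((Nl : (Fin 2 → ℝ) →L[ℝ] (Fin 2 → ℝ)) :
      (Fin 2 → ℝ) →ₗ[ℝ] (Fin 2 → ℝ)) = N := by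
    have : ((Nl : (Fin 2 → ℝ) →L[ℝ] (Fin 2 → ℝ)) : (Fin 2 → ℝ) →ₗ[ℝ] (Fin 2 → ℝ)) = N.toLin' := by
      ext1
      rfl
    rw [this, LinearMap.toMatrix'_toLin']
  have hmain := h (T * F₀ * N) (Nl ⁻¹' Ω) (hΩ.preimage Nl.continuous)
    (by
      have e : Nl ⁻¹' Ω = Nl.symm '' Ω := by
        rw [Nl.symm.image_eq_preimage_symm]
        rfl
      rw [e]
      exact Nl.symm.lipschitz.isBounded_image hb)
    (fun y => Tl (ϑ (Nl y))) ⟨_, Tl.lipschitz.comp (hK.comp Nl.lipschitz)⟩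
    (fun y hy => by rw [h0 _ hy, map_zero])
  have hfd : ∀ y, T * F₀ * N + LinearMap.toMatrix'
      ((fderiv ℝ (fun y => Tl (ϑ (Nl y))) y : (Fin 2 → ℝ) →L[ℝ] (Fin 2 → ℝ)) :
        (Fin 2 → ℝ) →ₗ[ℝ] (Fin 2 → ℝ)) = T * (F₀ + LinearMap.toMatrix'
      ((fderiv ℝ ϑ (Nl y) : (Fin 2 → ℝ) →L[ℝ] (Fin 2 → ℝ)) :
        (Fin 2 → ℝ) →ₗ[ℝ] (Fin 2 → ℝ))) * N := by
    intro y
    have e1 : fderiv ℝ (fun y => Tl (ϑ (Nl y))) y =
        (Tl : (Fin 2 → ℝ) →L[ℝ] (Fin 2 → ℝ)).comp ((fderiv ℝ ϑ (Nl y)).comp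
          (Nl : (Fin 2 → ℝ) →L[ℝ] (Fin 2 → ℝ))) := by
      have e2 : (fun y => Tl (ϑ (Nl y))) = Tl ∘ (ϑ ∘ Nl) := rfl
      rw [e2, Tl.comp_fderiv, Nl.comp_right_fderiv]
    rw [e1, ContinuousLinearMap.toLinearMap_comp, ContinuousLinearMap.toLinearMap_comp, LinearMap.toMatrix'_comp,
      LinearMap.toMatrix'_comp, hTm, hNm]
    simp only [Matrix.mul_add, Matrix.add_mul, Matrix.mul_assoc]
  simp only [hfd] at hmain
  set g : (Fin 2 → ℝ) → ℝ := fun x => W (T * (F₀ + LinearMap.toMatrix'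
      ((fderiv ℝ ϑ x : (Fin 2 → ℝ) →L[ℝ] (Fin 2 → ℝ)) :
        (Fin 2 → ℝ) →ₗ[ℝ] (Fin 2 → ℝ))) * N) with hg
  have hmap : Measure.map Nl (volume : Measure (Fin 2 → ℝ)) =
      ENNReal.ofReal |(N.det)⁻¹| • volume := Real.map_matrix_volume_pi_eq_smul_volume_pi hN
  have hemb : MeasurableEmbedding Nl := Nl.toHomeomorph.measurableEmbedding
  have hcpos : 0 < |(N.det)⁻¹| := abs_pos.2 (inv_ne_zero hN)
  have hint : ∫ y in Nl ⁻¹' Ω, g (Nl y) = |(N.det)⁻¹| * ∫ x in Ω, g x := by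
    rw [← hemb.setIntegral_map, hmap, Measure.restrict_smul, integral_smul_measure,
      ENNReal.toReal_ofReal hcpos.le, smul_eq_mul]
  have hvol : (volume (Nl ⁻¹' Ω)).toReal = |(N.det)⁻¹| * (volume Ω).toReal := by
    rw [← hemb.map_apply, hmap, Measure.smul_apply, smul_eq_mul, ENNReal.toReal_mul,
      ENNReal.toReal_ofReal hcpos.le]
  have hmain2 : W (T * F₀ * N) * (volume (Nl ⁻¹' Ω)).toReal ≤ ∫ y in Nl ⁻¹' Ω, g (Nl y) := hmain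
  rw [hint, hvol] at hmain2
  have h3 : |(N.det)⁻¹| * (W (T * F₀ * N) * (volume Ω).toReal) ≤
      |(N.det)⁻¹| * ∫ x in Ω, g x := by linarith
  exact le_of_mul_le_mul_left h3 hcpos

end Pool.Agent.U515.MR
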