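import Pool.Agent.U515.MR.Row

/-!
# Functions of the anticonformal part plus a quadratic form: the certificate
-/

set_option autoImplicit false

open MeasureTheory Set Filter Topology

namespace Pool.Agent.U515.MR

open Pool.Agent.W779.Morrey Pool.Agent.N555.MQ

/-- the anticonformal part of a matrix -/
noncomputable def acL : E →L[ℝ] V :=
  ContinuousLinearMap.pi ![Pool.Agent.N555.MQ.en 0 0 - Pool.Agent.N555.MQ.en 1 1,
    Pool.Agent.N555.MQ.en 1 0 + Pool.Agent.N555.MQ.en 0 1]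

theorem acL_zero (F : E) : acL F 0 = F 0 0 - F 1 1 := rfl

theorem acL_one (F : E) : acL F 1 = F 1 0 + F 0 1 := rfl

/-- the constant two-form -/
noncomputable def Θe (c : Fin 2 → Fin 2 → ℝ) : E →L[ℝ] E →L[ℝ] ℝ :=
  -- `k₀ = F 0 0 + F 1 1`, `k₁ = F 1 0 - F 0 1`, `p₀ = F 0 0 - F 1 1`, `p₁ = F 1 0 + F 0 1`
  (Pool.Agent.N555.MQ.en 0 0 + Pool.Agent.N555.MQ.en 1 1).smulRight
      ((-(4 * c 1 0)) • (Pool.Agent.N555.MQ.en 0 0 - Pool.Agent.N555.MQ.en 1 1)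
        + (-(4 * c 1 1)) • (Pool.Agent.N555.MQ.en 1 0 + Pool.Agent.N555.MQ.en 0 1))
  + (Pool.Agent.N555.MQ.en 1 0 - Pool.Agent.N555.MQ.en 0 1).smulRight
      ((4 * c 0 0) • (Pool.Agent.N555.MQ.en 0 0 - Pool.Agent.N555.MQ.en 1 1)
        + (4 * c 0 1) • (Pool.Agent.N555.MQ.en 1 0 + Pool.Agent.N555.MQ.en 0 1))

theorem Θe_apply (c : Fin 2 → Fin 2 → ℝ) (F G : E) : Θe c F G =
    (F 0 0 + F 1 1) * (-(4 * c 1 0) * (G 0 0 - G 1 1) + -(4 * c 1 1) * (G 1 0 + G 0 1))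
    + (F 1 0 - F 0 1) * (4 * c 0 0 * (G 0 0 - G 1 1) + 4 * c 0 1 * (G 1 0 + G 0 1)) := by
  simp only [Θe, _root_.sub_apply, _root_.add_apply, FunLike.coe_smul, Pi.smul_apply, smul_eq_mul,
    ContinuousLinearMap.smulRight_apply, Pool.Agent.N555.MQ.en_apply]

/-- the algebraic statement for the anticonformal part -/
theorem ell_alg (B : E →L[ℝ] E →L[ℝ] ℝ) (c : Fin 2 → Fin 2 → ℝ) (r0 r1 r2 : ℝ)
    (hB : ∀ F : E, B F F =
      2 * (c 0 0 * (F 0 0 + F 1 1) * (F 0 0 - F 1 1) + c 0 1 * (F 0 0 + F 1 1) * (F 1 0 + F 0 1)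
        + c 1 0 * (F 1 0 - F 0 1) * (F 0 0 - F 1 1) + c 1 1 * (F 1 0 - F 0 1) * (F 1 0 + F 0 1))
      + (r0 * (F 0 0 - F 1 1) ^ 2 + 2 * r1 * (F 0 0 - F 1 1) * (F 1 0 + F 0 1)
        + r2 * (F 1 0 + F 0 1) ^ 2))
    (S : V →L[ℝ] V →L[ℝ] ℝ) (hS : ∀ v w, S v w = S w v)
    (hn : ∀ H : E, dt H = 0 → 0 ≤ S (acL H) (acL H) + 2 * B H H)
    (G₀ G₁ : E) (hs : ∀ r, G₀ r 1 = G₁ r 0) (h0 : ar acL G₀ G₁ = 0) :
    0 ≤ Qf acL B (Θe c) S G₀ G₁ := by
  set a := S (Pi.single 0 1) (Pi.single 0 1) + 2 * r0 with ha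
  set b := S (Pi.single 0 1) (Pi.single 1 1) + 2 * r1 with hb
  set d := S (Pi.single 1 1) (Pi.single 1 1) + 2 * r2 with hd
  -- the inequality for the gradients `α ⊗ n` of `p`
  have hg : ∀ x y n m : ℝ, 0 ≤ (n ^ 2 + m ^ 2) * (a * x ^ 2 + 2 * b * (x * y) + d * y ^ 2)
      + 4 * ((c 0 0 * x + c 0 1 * y) * ((n ^ 2 - m ^ 2) * x + 2 * n * m * y)
        + (c 1 0 * x + c 1 1 * y) * ((n ^ 2 - m ^ 2) * y - 2 * n * m * x)) := by
    intro x y n m
    set N := n ^ 2 + m ^ 2 with hN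
    set k0 := (n ^ 2 - m ^ 2) * x + 2 * n * m * y with hk0
    set k1 := (n ^ 2 - m ^ 2) * y - 2 * n * m * x with hk1
    have hN0 : 0 ≤ N := by positivity
    have h1 := hn (fun r l => if r = 0 then (if l = 0 then (k0 + N * x) / 2 else (N * y - k1) / 2)
        else (if l = 0 then (k1 + N * y) / 2 else (k0 - N * x) / 2)) (by
      simp only [dt, if_true, one_ne_zero, if_false]
      rw [hN, hk0, hk1]
      ring)
    rw [hB, S_exp S hS (acL _)] at h1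
    simp only [acL_zero, acL_one, if_true, one_ne_zero, if_false] at h1
    have h2 : 0 ≤ N * (N * (a * x ^ 2 + 2 * b * (x * y) + d * y ^ 2)
      + 4 * ((c 0 0 * x + c 0 1 * y) * k0 + (c 1 0 * x + c 1 1 * y) * k1)) := by
      refine h1.trans (le_of_eq ?_)
      simp only [ha, hb, hd]
      ring
    rcases hN0.eq_or_lt with h3 | h3
    · have hx : n = 0 := by
        have := sq_nonneg n
        have := sq_nonneg m
        have hx2 : n ^ 2 = 0 := by rw [hN] at h3; linarith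
        exact pow_eq_zero_iff (two_ne_zero) |>.1 hx2
      have hy : m = 0 := by
        have := sq_nonneg n
        have := sq_nonneg m
        have hx2 : m ^ 2 = 0 := by rw [hN] at h3; linarith
        exact pow_eq_zero_iff (two_ne_zero) |>.1 hx2
      simp [hk0, hk1, hN, hx, hy]
    · by_contra hcon
      push Not at hcon
      have := mul_neg_of_pos_of_neg h3 hcon
      linarith
  have hs0 := hs 0
  have hs1 := hs 1
  -- derivatives of `p`
  set a0 := G₀ 0 0 - G₀ 1 1 with ha0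
  set a1 := G₀ 1 0 + G₀ 0 1 with ha1
  set b0 := G₁ 0 0 - G₁ 1 1 with hb0
  set b1 := G₁ 1 0 + G₁ 0 1 with hb1
  have hD : a0 * b1 - b0 * a1 = 0 := h0
  have htot : Qf acL B (Θe c) S G₀ G₁ =
      (a * a0 ^ 2 + 2 * b * (a0 * a1) + d * a1 ^ 2) + (a * b0 ^ 2 + 2 * b * (b0 * b1) + d * b1 ^ 2)
      + 4 * ((a1 - b0) * ((c 0 0 * b0 + c 0 1 * b1) + (c 1 0 * a0 + c 1 1 * a1))
        + (a0 + b1) * ((c 0 0 * a0 + c 0 1 * a1) - (c 1 0 * b0 + c 1 1 * b1))) := by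
    unfold Qf
    rw [hB, hB, S_exp S hS (acL G₀), S_exp S hS (acL G₁), Θe_apply, Θe_apply]
    simp only [acL_zero, acL_one]
    simp only [ha, hb, hd, ha0, ha1, hb0, hb1]
    rw [← hs0, ← hs1]
    ring
  rw [htot]
  -- `∇p = α ⊗ n`
  obtain ⟨x, y, n, m, e1, e2, e3, e4⟩ : ∃ x y n m : ℝ,
      a0 = n * x ∧ a1 = n * y ∧ b0 = m * x ∧ b1 = m * y := by
    by_cases h1 : a0 = 0 ∧ a1 = 0
    · exact ⟨b0, b1, 0, 1, by rw [h1.1]; ring, by rw [h1.2]; ring, by ring, by ring⟩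
    · have hpos : 0 < a0 ^ 2 + a1 ^ 2 := by
        by_contra hcon
        push Not at hcon
        apply h1
        have h2 : a0 ^ 2 = 0 := by nlinarith [sq_nonneg a0, sq_nonneg a1]
        have h3 : a1 ^ 2 = 0 := by nlinarith [sq_nonneg a0, sq_nonneg a1]
        exact ⟨pow_eq_zero_iff (two_ne_zero) |>.1 h2, pow_eq_zero_iff (two_ne_zero) |>.1 h3⟩
      refine ⟨a0, a1, 1, (a0 * b0 + a1 * b1) / (a0 ^ 2 + a1 ^ 2), by ring, by ring, ?_, ?_⟩
      · field_simp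
        linear_combination (-a1) * hD
      · field_simp
        linear_combination a0 * hD
  have h1 := hg x y n m
  rw [e1, e2, e3, e4]
  refine h1.trans (le_of_eq ?_)
  ring

/-- **Functions of the anticonformal part plus a quadratic form, normal form.** -/
theorem ell_main {h : V → ℝ} (hc : Continuous h) (B : E →L[ℝ] E →L[ℝ] ℝ) (c : Fin 2 → Fin 2 → ℝ)
    (r0 r1 r2 : ℝ)
    (hB : ∀ F : E, B F F =
      2 * (c 0 0 * (F 0 0 + F 1 1) * (F 0 0 - F 1 1) + c 0 1 * (F 0 0 + F 1 1) * (F 1 0 + F 0 1)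
        + c 1 0 * (F 1 0 - F 0 1) * (F 0 0 - F 1 1) + c 1 1 * (F 1 0 - F 0 1) * (F 1 0 + F 0 1))
      + (r0 * (F 0 0 - F 1 1) ^ 2 + 2 * r1 * (F 0 0 - F 1 1) * (F 1 0 + F 0 1)
        + r2 * (F 1 0 + F 0 1) ^ 2))
    (hroc : ∀ F H : E, dt H = 0 → ∀ t : ℝ, 0 ≤ t → t ≤ 1 →
      h (acL (F + t • H)) + B (F + t • H) (F + t • H)
        ≤ (1 - t) * (h (acL F) + B F F) + t * (h (acL (F + H)) + B (F + H) (F + H))) :
    QCtrig (fun F : E => h (acL F) + B F F) := by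
  have hpos : ∃ G₀ G₁ : E, (∀ r, G₀ r 1 = G₁ r 0) ∧ 0 < ar acL G₀ G₁ := by
    refine ⟨fun r l => if r = 0 ∧ l = 0 then 1 else 0, fun r l => if r = 0 ∧ l = 1 then 1 else 0,
      ?_, ?_⟩
    · intro r
      simp
    · simp [ar, acL_zero, acL_one]
  have hneg : ∃ G₀ G₁ : E, (∀ r, G₀ r 1 = G₁ r 0) ∧ ar acL G₀ G₁ < 0 := by
    refine ⟨fun r l => if r = 0 ∧ l = 0 then 1 else 0, fun r l => if r = 0 ∧ l = 1 then -1 else 0,
      ?_, ?_⟩
    · intro r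
      simp
    · simp [ar, acL_zero, acL_one]
  have hsurj : Function.Surjective acL := by
    intro v
    refine ⟨fun r l => if r = 0 then (if l = 0 then v 0 else v 1) else 0, ?_⟩
    ext j
    fin_cases j
    · simp [acL_zero]
    · simp [acL_one]
  refine gen_main (P := acL) hc B (Θe c) hsurj hpos hneg
    (fun S hS hn => slemma_sy acL B (Θe c) S hpos hneg
      (fun G₀ G₁ hs h0 => ell_alg B c r0 r1 r2 hB S hS hn G₀ G₁ hs h0)) hroc

end Pool.Agent.U515.MR
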