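import Pool.Agent.U515.MR.EllFin

/-!
# A polynomial which is rank-one convex and not polyconvex, in the class `h(P F) + Q(F)`
-/

set_option autoImplicit false

open Matrix

namespace Pool.Agent.U515.MR

/-- the function `h` of the example -/
noncomputable def hX (u v : ℝ) : ℝ :=
  (5 * u ^ 2 + v ^ 2) / 2 - u ^ 4 + 6 * u ^ 2 * v ^ 2 + 7 * v ^ 4 + 5 * u ^ 6

/-- the second derivative is nonnegative in rank-one directions -/
theorem hX_cert (U V ξ η κ κ' : ℝ) (hk : κ ^ 2 + κ' ^ 2 = ξ ^ 2 + η ^ 2) :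
    0 ≤ 5 * ξ ^ 2 + η ^ 2 - 12 * U ^ 2 * ξ ^ 2 + 12 * V ^ 2 * ξ ^ 2 + 48 * U * V * ξ * η
      + 12 * U ^ 2 * η ^ 2 + 84 * V ^ 2 * η ^ 2 + 150 * U ^ 4 * ξ ^ 2 + 4 * κ * ξ := by
  have hm : 0 < 1 + 6 * U ^ 2 := by positivity
  have h1 : 0 ≤ ((1 + 6 * U ^ 2) * κ + 2 * ξ) ^ 2 / (1 + 6 * U ^ 2) := by positivity
  have h2 : ((1 + 6 * U ^ 2) * κ + 2 * ξ) ^ 2 / (1 + 6 * U ^ 2)
      = (1 + 6 * U ^ 2) * κ ^ 2 + 4 * κ * ξ + 4 * ξ ^ 2 / (1 + 6 * U ^ 2) := by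
    field_simp
    ring
  have h3 : 4 * ξ ^ 2 / (1 + 6 * U ^ 2) ≤ (4 - 24 * U ^ 2 + 144 * U ^ 4) * ξ ^ 2 := by
    rw [div_le_iff₀ hm]
    nlinarith [mul_nonneg (sq_nonneg ξ) (by positivity : (0:ℝ) ≤ U ^ 6)]
  have h4 : (1 + 6 * U ^ 2) * κ ^ 2 ≤ (1 + 6 * U ^ 2) * (ξ ^ 2 + η ^ 2) :=
    mul_le_mul_of_nonneg_left (by nlinarith [sq_nonneg κ']) hm.le
  have h5 : 0 ≤ 6 * (U * ξ) ^ 2 + 84 * (V * η) ^ 2 + 42 * (U * ξ) * (V * η) := by
    nlinarith [sq_nonneg (U * ξ + 7 / 2 * (V * η)), sq_nonneg (V * η)]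
  have h6 : 0 ≤ 12 * (V * ξ) ^ 2 + 6 * (U * η) ^ 2 + 6 * (V * ξ) * (U * η) := by
    nlinarith [sq_nonneg (V * ξ + 1 / 4 * (U * η)), sq_nonneg (U * η)]
  have h7 : 0 ≤ 6 * U ^ 4 * ξ ^ 2 := by positivity
  nlinarith [h1, h2, h3, h4, h5, h6, h7]

/-- the function of the example -/
noncomputable def WX (F : M2) : ℝ :=
  hX (F 0 0 - F 1 1) (F 1 0 + F 0 1) + 2 * (F 0 0 ^ 2 - F 1 1 ^ 2)

theorem WX_roc (F H : M2) (hd : H.det = 0) (t : ℝ) (ht0 : 0 ≤ t) (ht1 : t ≤ 1) :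
    WX ((1 - t) • F + t • (F + H)) ≤ (1 - t) * WX F + t * WX (F + H) := by
  set u := F 0 0 - F 1 1 with hu
  set v := F 1 0 + F 0 1 with hv
  set k := F 0 0 + F 1 1 with hk
  set ξ := H 0 0 - H 1 1 with hξ
  set η := H 1 0 + H 0 1 with hη
  set κ := H 0 0 + H 1 1 with hκ
  set f : ℝ → ℝ := fun t => (5 * (u + t * ξ) ^ 2 + (v + t * η) ^ 2) / 2 - (u + t * ξ) ^ 4
    + 6 * ((u + t * ξ) ^ 2 * (v + t * η) ^ 2) + 7 * (v + t * η) ^ 4 + 5 * (u + t * ξ) ^ 6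
    + 2 * ((k + t * κ) * (u + t * ξ)) with hf
  have hW : ∀ s : ℝ, WX (F + s • H) = f s := by
    intro s
    simp only [WX, hX, hf, hu, hv, hk, hξ, hη, hκ, Matrix.add_apply, Matrix.smul_apply, smul_eq_mul]
    ring
  have hU : ∀ s : ℝ, HasDerivAt (fun t => u + t * ξ) ξ s := fun s => by
    simpa using ((hasDerivAt_id s).mul_const ξ).const_add u
  have hV : ∀ s : ℝ, HasDerivAt (fun t => v + t * η) η s := fun s => by
    simpa using ((hasDerivAt_id s).mul_const η).const_add v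
  have hK : ∀ s : ℝ, HasDerivAt (fun t => k + t * κ) κ s := fun s => by
    simpa using ((hasDerivAt_id s).mul_const κ).const_add k
  set f1 : ℝ → ℝ := fun t => 5 * ξ * (u + t * ξ) + η * (v + t * η) - 4 * ξ * (u + t * ξ) ^ 3
    + 12 * ξ * ((u + t * ξ) * (v + t * η) ^ 2) + 12 * η * ((u + t * ξ) ^ 2 * (v + t * η))
    + 28 * η * (v + t * η) ^ 3 + 30 * ξ * (u + t * ξ) ^ 5 + 2 * κ * (u + t * ξ)
    + 2 * ξ * (k + t * κ) with hf1
  set f2 : ℝ → ℝ := fun t => 5 * ξ ^ 2 + η ^ 2 - 12 * (u + t * ξ) ^ 2 * ξ ^ 2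
      + 12 * (v + t * η) ^ 2 * ξ ^ 2 + 48 * (u + t * ξ) * (v + t * η) * ξ * η
      + 12 * (u + t * ξ) ^ 2 * η ^ 2 + 84 * (v + t * η) ^ 2 * η ^ 2
      + 150 * (u + t * ξ) ^ 4 * ξ ^ 2 + 4 * κ * ξ with hf2
  have hd1 : ∀ s, HasDerivAt f (f1 s) s := by
    intro s
    have h := (((((((((hU s).pow 2).const_mul 5).add ((hV s).pow 2)).div_const 2).sub
      ((hU s).pow 4)).add ((((hU s).pow 2).mul ((hV s).pow 2)).const_mul 6)).add
      (((hV s).pow 4).const_mul 7)).add (((hU s).pow 6).const_mul 5)).add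
      (((hK s).mul (hU s)).const_mul 2)
    refine h.congr_deriv ?_
    simp only [hf1, Nat.cast_ofNat, Nat.add_one_sub_one, pow_one, Pi.pow_apply]
    ring
  have hd2 : ∀ s, HasDerivAt f1 (f2 s) s := by
    intro s
    have h := (((((((((hU s).const_mul (5 * ξ)).add ((hV s).const_mul η)).sub
      (((hU s).pow 3).const_mul (4 * ξ))).add (((hU s).mul ((hV s).pow 2)).const_mul (12 * ξ))).add
      ((((hU s).pow 2).mul (hV s)).const_mul (12 * η))).add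
      (((hV s).pow 3).const_mul (28 * η))).add (((hU s).pow 5).const_mul (30 * ξ))).add
      ((hU s).const_mul (2 * κ))).add ((hK s).const_mul (2 * ξ))
    refine h.congr_deriv ?_
    simp only [hf2, Nat.cast_ofNat, Nat.add_one_sub_one, pow_one, Pi.pow_apply]
    ring
  have hkk : κ ^ 2 + (H 1 0 - H 0 1) ^ 2 = ξ ^ 2 + η ^ 2 := by
    rw [Matrix.det_fin_two] at hd
    simp only [hκ, hξ, hη]
    nlinarith [hd]
  have hconv : ConvexOn ℝ Set.univ f := by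
    refine convexOn_of_hasDerivWithinAt2_nonneg convex_univ (f' := f1) (f'' := f2)
      (fun s _ => (hd1 s).continuousAt.continuousWithinAt)
      (fun s _ => (hd1 s).hasDerivWithinAt) (fun s _ => (hd2 s).hasDerivWithinAt) (fun s _ => ?_)
    exact hX_cert _ _ ξ η κ _ hkk
  have h := hconv.2 (Set.mem_univ 0) (Set.mem_univ 1) (sub_nonneg.2 ht1) ht0 (by ring)
  simp only [smul_eq_mul, mul_zero, zero_add, mul_one] at h
  have e0 : WX F = f 0 := by
    have := hW 0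
    rwa [zero_smul, add_zero] at this
  have e1 : WX (F + H) = f 1 := by
    have := hW 1
    rwa [one_smul] at this
  have e2 : (1 - t) • F + t • (F + H) = F + t • H := by
    rw [smul_add, ← add_assoc, ← add_smul]
    simp
  rw [e2, hW, e0, e1]
  exact h

theorem WX_not_poly (P : M2 × ℝ → EReal)
    (h2 : ∀ z w : M2 × ℝ, ∀ a b : ℝ, 0 ≤ a → 0 ≤ b → a + b = 1 →
      P (a • z + b • w) ≤ (a : EReal) * P z + (b : EReal) * P w)
    (h3 : ∀ F, P (F, F.det) = (WX F : EReal)) : False := by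
  have hev : ∀ F : M2, P (0, F.det) ≤ (((WX F + WX (-F)) / 2 : ℝ) : EReal) := by
    intro F
    have h := h2 (F, F.det) (-F, F.det) (1 / 2) (1 / 2) (by norm_num) (by norm_num) (by norm_num)
    have e : (1 / 2 : ℝ) • ((F, F.det) : M2 × ℝ) + (1 / 2 : ℝ) • (-F, F.det) = (0, F.det) := by
      ext i j
      · simp
      · simp
        ring
    rw [e] at h
    have h5 : P (-F, F.det) = (WX (-F) : EReal) := by
      rw [← h3 (-F)]
      congr 2
      rw [Matrix.det_fin_two, Matrix.det_fin_two]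
      simp only [Matrix.neg_apply]
      ring
    rw [h3, h5, ← EReal.coe_mul, ← EReal.coe_mul, ← EReal.coe_add] at h
    refine h.trans (EReal.coe_le_coe_iff.2 (le_of_eq ?_))
    ring
  have hA := hev !![-(3 / 20), 0; 0, -(9 / 20)]
  have hB := hev !![0, 1 / 60; 1 / 60, 0]
  have hC := h2 (0, (27 / 400 : ℝ)) (0, -(1 / 3600 : ℝ)) (1 / 244) (243 / 244) (by norm_num)
    (by norm_num) (by norm_num)
  have e : (1 / 244 : ℝ) • ((0, (27 / 400 : ℝ)) : M2 × ℝ) + (243 / 244 : ℝ) • (0, -(1 / 3600 : ℝ))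
      = (0, 0) := by
    ext i j
    · simp
    · simp
      norm_num
  have e0 : P (0, 0) = ((0 : ℝ) : EReal) := by
    have := h3 0
    rw [show (0 : M2).det = 0 from by simp] at this
    rw [this]
    congr 1
    simp [WX, hX]
  have d1 : (!![-(3 / 20), 0; 0, -(9 / 20)] : M2).det = 27 / 400 := by
    rw [Matrix.det_fin_two_of]
    norm_num
  have d2 : (!![0, 1 / 60; 1 / 60, 0] : M2).det = -(1 / 3600) := by
    rw [Matrix.det_fin_two_of]
    norm_num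
  rw [d1] at hA
  rw [d2] at hB
  rw [e, e0] at hC
  have w1 : (WX !![-(3 / 20), 0; 0, -(9 / 20)] + WX (-!![-(3 / 20), 0; 0, -(9 / 20)])) / 2
      = -(139455 / 1000000) := by
    simp [WX, hX]
    norm_num
  have w2 : (WX !![0, 1 / 60; 1 / 60, 0] + WX (-!![0, 1 / 60; 1 / 60, 0])) / 2
      = 457 / 810000 := by
    simp [WX, hX]
    norm_num
  rw [w1] at hA
  rw [w2] at hB
  have h6 : ((1 / 244 : ℝ) : EReal) * P (0, (27 / 400 : ℝ)) ≤
      ((1 / 244 : ℝ) : EReal) * ((-(139455 / 1000000) : ℝ) : EReal) :=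
    mul_le_mul_of_nonneg_left hA (by
      rw [← EReal.coe_zero]
      exact EReal.coe_le_coe_iff.2 (by norm_num))
  have h7 : ((243 / 244 : ℝ) : EReal) * P (0, -(1 / 3600 : ℝ)) ≤
      ((243 / 244 : ℝ) : EReal) * ((457 / 810000 : ℝ) : EReal) :=
    mul_le_mul_of_nonneg_left hB (by
      rw [← EReal.coe_zero]
      exact EReal.coe_le_coe_iff.2 (by norm_num))
  have h8 := hC.trans (add_le_add h6 h7)
  rw [← EReal.coe_mul, ← EReal.coe_mul, ← EReal.coe_add] at h8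
  have h9 := EReal.coe_le_coe_iff.1 h8
  norm_num at h9

end Pool.Agent.U515.MR
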