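import Pool.Agent.U515.MR.Row
import Pool.Agent.U515.MR.Comp

/-!
# The theorem on one row plus a quadratic form, for matrices
-/

set_option autoImplicit false

open MeasureTheory Set Filter Topology Matrix

namespace Pool.Agent.U515.MR

open Pool.Agent.W779.Morrey Pool.Agent.N555.MQ

/-- real `2 × 2` matrices -/
abbrev M2 := Matrix (Fin 2) (Fin 2) ℝ

abbrev ROC (W : M2 → ℝ) : Prop := Pool.Agent.Helper188.Morrey.RankOneConvex W

theorem roc_of_seg {W : M2 → ℝ}
    (h : ∀ F H : M2, H.det = 0 → ∀ t : ℝ, 0 ≤ t → t ≤ 1 →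
      W (F + t • H) ≤ (1 - t) * W F + t * W (F + H)) : ROC W := by
  intro F H hH t ht0 ht1
  have e : (1 - t) • F + t • (F + H) = F + t • H := by module
  rw [e]
  exact h F H (Pool.Agent.Helper188.Morrey.det_eq_zero_of_rank hH.le) t ht0 ht1

/-- rank-one convexity after a linear change of the variables -/
theorem roc_comp {W : M2 → ℝ} (hW : ROC W) (T N : M2) : ROC (fun F => W (T * F * N)) := by
  refine roc_of_seg fun F H hH t ht0 ht1 => ?_
  have e1 : T * (F + t • H) * N = T * F * N + t • (T * H * N) := by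
    simp [Matrix.mul_add, Matrix.add_mul]
  have e2 : T * (F + H) * N = T * F * N + T * H * N := by
    simp [Matrix.mul_add, Matrix.add_mul]
  have hd : (T * H * N).det = 0 := by
    rw [Matrix.det_mul, Matrix.det_mul, hH]
    ring
  show W (T * (F + t • H) * N) ≤ (1 - t) * W (T * F * N) + t * W (T * (F + H) * N)
  rw [e1, e2]
  exact hW.seg _ _ hd ht0 ht1

/-- limits `ε → 0` -/
theorem QC_eps {W D : M2 → ℝ} (hW : Continuous W) (hD : Continuous D)
    (h : ∀ ε : ℝ, 0 < ε → QC (fun F => W F + ε * D F)) : QC W := by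
  rintro F₀ Ω hΩ hb ϑ ⟨K, hK⟩ h0
  have hgr : ∀ x, F₀ + LinearMap.toMatrix'
      ((fderiv ℝ ϑ x : (Fin 2 → ℝ) →L[ℝ] (Fin 2 → ℝ)) : (Fin 2 → ℝ) →ₗ[ℝ] (Fin 2 → ℝ)) =
      of (of.symm F₀ + gr ϑ x) := by
    intro x
    ext r l
    rw [of_apply, Pi.add_apply, Pi.add_apply, Matrix.add_apply, LinearMap.toMatrix'_apply]
    simp only [of_symm_apply, gr, ContinuousLinearMap.coe_coe]
  have hmeasE : Measurable (fun x => gr ϑ x) :=
    measurable_pi_lambda _ fun r => measurable_pi_lambda _ fun l => measurable_gr ϑ r l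
  have hint : ∀ D : M2 → ℝ, Continuous D → IntegrableOn (fun x => D (F₀ + LinearMap.toMatrix'
      ((fderiv ℝ ϑ x : (Fin 2 → ℝ) →L[ℝ] (Fin 2 → ℝ)) : (Fin 2 → ℝ) →ₗ[ℝ] (Fin 2 → ℝ)))) Ω := by
    intro D hD
    have hD' : Continuous (fun F : E => D (of F)) := hD
    simp only [hgr]
    obtain ⟨C, hC⟩ := W_bound hD' (of.symm F₀) (K : ℝ)
    have hm : Measurable (fun x => D (of (of.symm F₀ + gr ϑ x))) :=
      hD'.measurable.comp (measurable_const.add hmeasE)
    exact Measure.integrableOn_of_bounded (M := C) hb.measure_lt_top.ne hm.aestronglyMeasurable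
      (Eventually.of_forall fun x => hC _ fun r l => gr_bound hK x r l)
  have hiW := hint W hW
  have hiD := hint D hD
  set I := ∫ x in Ω, W (F₀ + LinearMap.toMatrix'
      ((fderiv ℝ ϑ x : (Fin 2 → ℝ) →L[ℝ] (Fin 2 → ℝ)) : (Fin 2 → ℝ) →ₗ[ℝ] (Fin 2 → ℝ))) with hI
  set J := ∫ x in Ω, D (F₀ + LinearMap.toMatrix'
      ((fderiv ℝ ϑ x : (Fin 2 → ℝ) →L[ℝ] (Fin 2 → ℝ)) : (Fin 2 → ℝ) →ₗ[ℝ] (Fin 2 → ℝ))) with hJ
  have hlim : ∀ ε : ℝ, 0 < ε → W F₀ * (volume Ω).toReal - I ≤
      ε * (J - D F₀ * (volume Ω).toReal) := by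
    intro ε hε
    have h1 := h ε hε F₀ Ω hΩ hb ϑ ⟨K, hK⟩ h0
    simp only at h1
    rw [integral_add hiW (hiD.const_mul ε), integral_const_mul, ← hI, ← hJ] at h1
    linarith
  by_contra hcon
  push Not at hcon
  set δ := W F₀ * (volume Ω).toReal - I with hδ
  have hδ0 : 0 < δ := by linarith
  set B := J - D F₀ * (volume Ω).toReal with hB
  have h1 := hlim (δ / (2 * (|B| + 1))) (by positivity)
  have h2 : δ / (2 * (|B| + 1)) * B ≤ δ / 2 := by
    have h3 : B ≤ |B| + 1 := by
      have := le_abs_self B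
      linarith
    calc δ / (2 * (|B| + 1)) * B ≤ δ / (2 * (|B| + 1)) * (|B| + 1) :=
          mul_le_mul_of_nonneg_left h3 (by positivity)
      _ = δ / 2 := by field_simp
  linarith

/-- the second row only -/
def r1 (x y : ℝ) : M2 := !![0, 0; x, y]

/-- **Normal form.** -/
theorem row_normal (h : V → ℝ) (Q : QuadraticForm ℝ M2) (L : M2 →ₗ[ℝ] ℝ)
    (hroc : ROC fun F => h (F 0) + Q F + L F)
    (hQ : ∀ x y : ℝ, Q (r1 x y) = x ^ 2 + y ^ 2) :
    QC fun F => h (F 0) + Q F + L F := by
  set oL : E →ₗ[ℝ] M2 := (Matrix.ofLinearEquiv ℝ : E ≃ₗ[ℝ] M2).toLinearMap with hoL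
  have hoLa : ∀ F : E, oL F = of F := fun F => rfl
  set A : LinearMap.BilinForm ℝ M2 := QuadraticMap.associated Q with hA
  set B : E →L[ℝ] E →L[ℝ] ℝ := LinearMap.toContinuousBilinearMap (A.compl₁₂ oL oL) with hB
  set L' : E →L[ℝ] ℝ := LinearMap.toContinuousLinearMap (E := E) (F' := ℝ) (L ∘ₗ oL) with hL'
  have hBA : ∀ F G : E, B F G = A (of F) (of G) := fun F G => rfl
  have hBQ : ∀ F : E, B F F = Q (of F) := fun F => QuadraticMap.associated_eq_self_apply ℝ Q (of F)
  have hLL : ∀ F : E, L' F = L (of F) := fun F => rfl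
  have hsymA : ∀ F G : M2, A F G = A G F := fun F G => by
    rw [hA, QuadraticMap.associated_apply, QuadraticMap.associated_apply, add_comm F G]
    ring_nf
  have hsymB : ∀ F G : E, B F G = B G F := fun F G => hsymA _ _
  have hcM : Continuous fun F : M2 => h (F 0) + Q F + L F := hroc.continuous
  have e3 : (fun F : E => h ((of F) 0) + Q (of F) + L (of F))
      = fun F : E => (h (F 0) + B F F) + L' F := by
    funext F
    rw [hBQ]
    rfl
  have hc : Continuous fun F : E => h (F 0) + B F F + L' F := by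
    have h1 : Continuous fun F : E => h ((of F) 0) + Q (of F) + L (of F) := hcM
    rw [e3] at h1
    exact h1
  have hBc : Continuous (fun F : E => B F F) := B.continuous.clm_apply continuous_id
  have hinc : Continuous (fun v : V => (fun _ => v : E)) := by fun_prop
  have hgc : Continuous h := by
    have h1 : h = fun v => (h ((fun _ => v : E) 0) + B (fun _ => v) (fun _ => v)
        + L' (fun _ => v)) - B (fun _ => v) (fun _ => v) - L' (fun _ => v) := by
      funext v
      ring
    rw [h1]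
    exact ((hc.comp hinc).sub (hBc.comp hinc)).sub (L'.continuous.comp hinc)
  have hcW : Continuous (fun F : E => h (F 0) + B F F) :=
    (hgc.comp (continuous_apply 0)).add hBc
  refine QC_of_trig hcM ?_
  rw [e3]
  refine QCtrig_add_lin ?_ hcW L'
  -- expansion of the quadratic form
  set u : Fin 2 → Fin 2 → E := fun r l => fun r' l' => if r' = r ∧ l' = l then 1 else 0 with hu
  have hexpF : ∀ F : E, F = F 0 0 • u 0 0 + F 0 1 • u 0 1 + F 1 0 • u 1 0 + F 1 1 • u 1 1 := by
    intro F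
    ext r l
    fin_cases r <;> fin_cases l <;> simp [hu]
  have hrow : ∀ x y : ℝ, x ^ 2 + y ^ 2 = x ^ 2 * B (u 1 0) (u 1 0) + 2 * (x * y) * B (u 1 0) (u 1 1)
      + y ^ 2 * B (u 1 1) (u 1 1) := by
    intro x y
    have e1 : r1 x y = of (x • u 1 0 + y • u 1 1) := by
      ext r l
      fin_cases r <;> fin_cases l <;> simp [r1, hu]
    rw [← hQ x y, e1, ← hBQ]
    simp only [map_add, map_smul, _root_.add_apply, FunLike.coe_smul, Pi.smul_apply, smul_eq_mul]
    rw [hsymB (u 1 1) (u 1 0)]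
    ring
  have h10 : B (u 1 0) (u 1 0) = 1 := by
    have := hrow 1 0
    simp at this
    linarith
  have h11 : B (u 1 1) (u 1 1) = 1 := by
    have := hrow 0 1
    simp at this
    linarith
  have h1011 : B (u 1 0) (u 1 1) = 0 := by
    have := hrow 1 1
    rw [h10, h11] at this
    linarith
  refine row_main hgc B (fun i j => B (u 1 i) (u 0 j)) (B (u 0 0) (u 0 0)) (B (u 0 0) (u 0 1))
    (B (u 0 1) (u 0 1)) (fun F => ?_) (fun F H hH t ht0 ht1 => ?_)
  · conv_lhs => rw [hexpF F]
    simp only [map_add, map_smul, _root_.add_apply, FunLike.coe_smul, Pi.smul_apply, smul_eq_mul]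
    rw [hsymB (u 0 1) (u 0 0), hsymB (u 0 0) (u 1 0), hsymB (u 0 1) (u 1 0), hsymB (u 0 0) (u 1 1),
      hsymB (u 0 1) (u 1 1), hsymB (u 1 1) (u 1 0), h10, h11, h1011]
    ring
  · have h1 := hroc.seg (of F) (of H) (by rw [det_of]; exact hH) ht0 ht1
    have f1 := congrFun e3 (F + t • H)
    have f2 := congrFun e3 F
    have f3 := congrFun e3 (F + H)
    have h2 : h ((F + t • H) 0) + B (F + t • H) (F + t • H) + L' (F + t • H)
        ≤ (1 - t) * (h (F 0) + B F F + L' F)
          + t * (h ((F + H) 0) + B (F + H) (F + H) + L' (F + H)) := by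
      rw [← f1, ← f2, ← f3]
      exact h1
    have g1 : L' (F + t • H) = L' F + t * L' H := by rw [map_add, map_smul, smul_eq_mul]
    have g2 : L' (F + H) = L' F + L' H := map_add _ _ _
    rw [g1, g2] at h2
    linarith

/-- The quadratic form on the second row. -/
theorem row_form (Q : QuadraticForm ℝ M2) : ∃ a b d : ℝ, ∀ x y : ℝ,
    Q (r1 x y) = a * x ^ 2 + 2 * b * (x * y) + d * y ^ 2 := by
  set A : LinearMap.BilinForm ℝ M2 := QuadraticMap.associated Q with hA
  have hAQ : ∀ F : M2, A F F = Q F := fun F => QuadraticMap.associated_eq_self_apply ℝ Q F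
  have hsymA : ∀ F G : M2, A F G = A G F := fun F G => by
    rw [hA, QuadraticMap.associated_apply, QuadraticMap.associated_apply, add_comm F G]
    ring_nf
  refine ⟨A (r1 1 0) (r1 1 0), A (r1 1 0) (r1 0 1), A (r1 0 1) (r1 0 1), fun x y => ?_⟩
  have e1 : r1 x y = x • r1 1 0 + y • r1 0 1 := by
    ext r l
    fin_cases r <;> fin_cases l <;> simp [r1]
  rw [← hAQ, e1]
  simp only [map_add, map_smul, LinearMap.add_apply, LinearMap.smul_apply, smul_eq_mul]
  rw [hsymA (r1 0 1) (r1 1 0)]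
  ring

/-- Positive definite forms on the second row. -/
theorem row_posdef (h : V → ℝ) (Q : QuadraticForm ℝ M2) (L : M2 →ₗ[ℝ] ℝ)
    (hroc : ROC fun F => h (F 0) + Q F + L F) (a b d : ℝ)
    (hQ : ∀ x y : ℝ, Q (r1 x y) = a * x ^ 2 + 2 * b * (x * y) + d * y ^ 2)
    (ha : 0 < a) (hd : 0 < a * d - b ^ 2) :
    QC fun F => h (F 0) + Q F + L F := by
  set δ := a * d - b ^ 2 with hδ
  set s := Real.sqrt (a / δ) with hs
  set q := Real.sqrt a with hq
  have hs0 : 0 < s := Real.sqrt_pos.2 (by positivity)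
  have hq0 : 0 < q := Real.sqrt_pos.2 ha
  have hs2 : s ^ 2 = a / δ := Real.sq_sqrt (by positivity)
  have hq2 : q ^ 2 = a := Real.sq_sqrt ha.le
  set M : M2 := !![1 / q, 0; -(b / a) * s, s] with hM
  have hMdet : M.det ≠ 0 := by
    rw [hM, Matrix.det_fin_two]
    simp
    exact ⟨hq0.ne', hs0.ne'⟩
  -- the right multiplication as a linear map
  set R : M2 →ₗ[ℝ] M2 := LinearMap.mulRight ℝ M with hR
  have hRa : ∀ F : M2, R F = F * M := fun F => rfl
  set h' : V → ℝ := fun v => h (v ᵥ* M) with hh'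
  have hrow : ∀ F : M2, (F * M) 0 = (F 0) ᵥ* M := fun F => by
    ext l
    simp [Matrix.mul_apply, Matrix.vecMul, dotProduct]
  have key : QC fun F => h' (F 0) + (Q.comp R) F + (L ∘ₗ R) F := by
    refine row_normal h' (Q.comp R) (L ∘ₗ R) ?_ fun x y => ?_
    · have h1 := roc_comp hroc 1 M
      have e : (fun F : M2 => h' (F 0) + (Q.comp R) F + (L ∘ₗ R) F) =
          fun F : M2 => (fun F : M2 => h (F 0) + Q F + L F) (1 * F * M) := by
        funext F
        simp only [Matrix.one_mul, hh', QuadraticMap.comp_apply, LinearMap.comp_apply, hRa, hrow]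
      rw [e]
      exact h1
    · have e : R (r1 x y) = r1 (x * (1 / q) + y * (-(b / a) * s)) (y * s) := by
        rw [hRa]
        ext r l
        fin_cases r <;> fin_cases l <;> simp [r1, hM, Matrix.mul_apply, Fin.sum_univ_two]
      rw [QuadraticMap.comp_apply, e, hQ]
      have h1 : a * (x * (1 / q) + y * (-(b / a) * s)) ^ 2
          + 2 * b * ((x * (1 / q) + y * (-(b / a) * s)) * (y * s)) + d * (y * s) ^ 2
          = a / q ^ 2 * x ^ 2 + (d - b ^ 2 / a) * s ^ 2 * y ^ 2 := by
        field_simp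
        ring
      rw [h1, hq2, hs2]
      have h2 : (d - b ^ 2 / a) * (a / δ) = 1 := by
        have e5 : d - b ^ 2 / a = δ / a := by
          rw [hδ]
          field_simp
        rw [e5]
        have hδ0 : δ ≠ 0 := hd.ne'
        field_simp
      rw [h2, div_self ha.ne']
      ring
  have h2 := QC_comp (1 : M2) M⁻¹ (by simp) (by
    rw [Matrix.det_nonsing_inv, Ring.inverse_eq_inv']
    exact inv_ne_zero hMdet) key
  have e2 : (fun F : M2 => h (F 0) + Q F + L F) = fun F : M2 =>
      (fun F : M2 => h' (F 0) + (Q.comp R) F + (L ∘ₗ R) F) (1 * F * M⁻¹) := by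
    funext F
    have e3 : F * M⁻¹ * M = F := by
      rw [Matrix.mul_assoc, Matrix.nonsing_inv_mul _ (isUnit_iff_ne_zero.2 hMdet), Matrix.mul_one]
    simp only [Matrix.one_mul, hh', QuadraticMap.comp_apply, LinearMap.comp_apply, hRa]
    rw [← hrow, e3]
  rw [e2]
  exact h2

/-- **The first row.** -/
theorem row_first (h : V → ℝ) (Q : QuadraticForm ℝ M2) (L : M2 →ₗ[ℝ] ℝ)
    (hroc : ROC fun F => h (F 0) + Q F + L F) : QC fun F => h (F 0) + Q F + L F := by
  obtain ⟨a, b, d, hQ⟩ := row_form Q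
  -- nonnegativity
  have hnn : ∀ x y : ℝ, 0 ≤ a * x ^ 2 + 2 * b * (x * y) + d * y ^ 2 := by
    intro x y
    rw [← hQ]
    have h0 := hroc.seg (0 - (r1 x y)) ((2:ℝ) • r1 x y) (by
      simp [r1, Matrix.det_fin_two]) (t := 1 / 2) (by norm_num) (by norm_num)
    have e1 : (0 : M2) - r1 x y + (1 / 2 : ℝ) • (2:ℝ) • r1 x y = 0 := by module
    have e2 : (0 : M2) - r1 x y + (2:ℝ) • r1 x y = r1 x y := by module
    rw [e1, e2] at h0
    simp only [zero_sub, QuadraticMap.map_neg, map_neg, map_zero, add_zero] at h0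
    have e3 : (-(r1 x y)) 0 = (0 : M2) 0 := by
      ext l
      fin_cases l <;> simp [r1]
    have e4 : (r1 x y) 0 = (0 : M2) 0 := by
      ext l
      fin_cases l <;> simp [r1]
    rw [e3, e4] at h0
    linarith
  have ha : 0 ≤ a := by
    have := hnn 1 0
    simp at this
    exact this
  have hd0 : 0 ≤ d := by
    have := hnn 0 1
    simp at this
    exact this
  have hdet : 0 ≤ a * d - b ^ 2 := by
    rcases ha.eq_or_lt with h0 | h0
    · have h1 := hnn (-(d + 1)) b
      rw [← h0] at h1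
      have h2 : b ^ 2 * (d + 2) ≤ 0 := by nlinarith
      have h3 : b ^ 2 ≤ 0 := by
        by_contra hcon
        push Not at hcon
        nlinarith
      rw [← h0]
      linarith
    · have h1 := hnn (-b) a
      have h2 : 0 ≤ a * (a * d - b ^ 2) := by nlinarith
      by_contra hcon
      push Not at hcon
      have := mul_neg_of_pos_of_neg h0 hcon
      linarith
  -- the additional form
  set D : QuadraticForm ℝ M2 := QuadraticMap.linMulLin (Matrix.entryLinearMap ℝ ℝ 1 0)
      (Matrix.entryLinearMap ℝ ℝ 1 0) + QuadraticMap.linMulLin (Matrix.entryLinearMap ℝ ℝ 1 1)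
      (Matrix.entryLinearMap ℝ ℝ 1 1) with hD
  have hDa : ∀ F : M2, D F = F 1 0 * F 1 0 + F 1 1 * F 1 1 := by
    intro F
    simp [hD, QuadraticMap.linMulLin_apply]
  have hDc : Continuous (fun F : M2 => D F) := by
    simp only [hDa]
    fun_prop
  refine QC_eps hroc.continuous hDc fun ε hε => ?_
  have e : (fun F : M2 => h (F 0) + Q F + L F + ε * D F) =
      fun F : M2 => h (F 0) + (Q + ε • D) F + L F := by
    funext F
    simp only [QuadraticMap.add_apply, QuadraticMap.smul_apply, smul_eq_mul]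
    ring
  rw [e]
  refine row_posdef h (Q + ε • D) L ?_ (a + ε) b (d + ε) (fun x y => ?_) (by linarith) (by
    nlinarith [mul_nonneg ha hε.le, mul_nonneg hd0 hε.le, mul_pos hε hε])
  · refine roc_of_seg fun F H hH t ht0 ht1 => ?_
    have h1 := hroc.seg F H hH ht0 ht1
    simp only [QuadraticMap.add_apply, QuadraticMap.smul_apply, smul_eq_mul, hDa] at h1 ⊢
    have h2 : (F + t • H) 1 0 * (F + t • H) 1 0 + (F + t • H) 1 1 * (F + t • H) 1 1 ≤
        (1 - t) * (F 1 0 * F 1 0 + F 1 1 * F 1 1)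
          + t * ((F + H) 1 0 * (F + H) 1 0 + (F + H) 1 1 * (F + H) 1 1) := by
      simp only [Matrix.add_apply, Matrix.smul_apply, smul_eq_mul]
      have h3 : 0 ≤ t * (1 - t) := mul_nonneg ht0 (by linarith)
      nlinarith [mul_nonneg h3 (sq_nonneg (H 1 0)), mul_nonneg h3 (sq_nonneg (H 1 1))]
    have h4 := mul_le_mul_of_nonneg_left h2 hε.le
    linarith
  · simp only [QuadraticMap.add_apply, QuadraticMap.smul_apply, smul_eq_mul, hQ, hDa]
    simp [r1]
    ring

/-- **One row plus a polynomial of degree two.** -/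
theorem fin_row (β : V) (h : V → ℝ) (Q : QuadraticForm ℝ M2) (L : M2 →ₗ[ℝ] ℝ)
    (hroc : ROC fun F => h (β ᵥ* F) + Q F + L F) : QC fun F => h (β ᵥ* F) + Q F + L F := by
  by_cases hβ : β = 0
  · have e : (fun F : M2 => h (β ᵥ* F) + Q F + L F) =
        fun F : M2 => (fun _ => h 0) (F *ᵥ (0 : V)) + Q F + L F := by
      funext F
      rw [hβ, Matrix.zero_vecMul]
    rw [e] at hroc ⊢
    exact fin_quad 0 (fun _ => h 0) Q L hroc
  · -- an invertible matrix with first row `β`
    set T : M2 := !![β 0, β 1; -β 1, β 0] with hT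
    have hTd : T.det ≠ 0 := by
      rw [hT, Matrix.det_fin_two]
      have := pos_sq hβ
      simp
      nlinarith
    have hrow : ∀ F : M2, (T * F) 0 = β ᵥ* F := by
      intro F
      ext l
      simp [hT, Matrix.mul_apply, Matrix.vecMul, dotProduct, Fin.sum_univ_two]
    set R : M2 →ₗ[ℝ] M2 := LinearMap.mulLeft ℝ T⁻¹ with hR
    have hRa : ∀ F : M2, R F = T⁻¹ * F := fun F => rfl
    have key : QC fun F => h (F 0) + (Q.comp R) F + (L ∘ₗ R) F := by
      refine row_first h (Q.comp R) (L ∘ₗ R) ?_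
      have h1 := roc_comp hroc T⁻¹ 1
      have e : (fun F : M2 => h (F 0) + (Q.comp R) F + (L ∘ₗ R) F) =
          fun F : M2 => (fun F : M2 => h (β ᵥ* F) + Q F + L F) (T⁻¹ * F * 1) := by
        funext F
        have e3 : T * (T⁻¹ * F) = F := by
          rw [← Matrix.mul_assoc, Matrix.mul_nonsing_inv _ (isUnit_iff_ne_zero.2 hTd),
            Matrix.one_mul]
        simp only [Matrix.mul_one, QuadraticMap.comp_apply, LinearMap.comp_apply, hRa]
        rw [← hrow, e3]
      rw [e]
      exact h1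
    have h2 := QC_comp T (1 : M2) hTd (by simp) key
    have e2 : (fun F : M2 => h (β ᵥ* F) + Q F + L F) = fun F : M2 =>
        (fun F : M2 => h (F 0) + (Q.comp R) F + (L ∘ₗ R) F) (T * F * 1) := by
      funext F
      have e3 : T⁻¹ * (T * F) = F := by
        rw [← Matrix.mul_assoc, Matrix.nonsing_inv_mul _ (isUnit_iff_ne_zero.2 hTd),
          Matrix.one_mul]
      simp only [Matrix.mul_one, QuadraticMap.comp_apply, LinearMap.comp_apply, hRa]
      rw [hrow, e3]
    rw [e2]
    exact h2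

end Pool.Agent.U515.MR
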