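import Pool.Agent.U515.MR.Ell
import Pool.Agent.U515.MR.RowFin

/-!
# The theorem on elliptic pairs plus a quadratic form, for matrices
-/

set_option autoImplicit false

open MeasureTheory Set Filter Topology Matrix

namespace Pool.Agent.U515.MR

open Pool.Agent.W779.Morrey Pool.Agent.N555.MQ

/-- the determinant as a quadratic form -/
noncomputable def detQ : QuadraticForm ℝ M2 :=
  QuadraticMap.linMulLin (Matrix.entryLinearMap ℝ ℝ (0 : Fin 2) (0 : Fin 2))
      (Matrix.entryLinearMap ℝ ℝ 1 1)
    - QuadraticMap.linMulLin (Matrix.entryLinearMap ℝ ℝ 0 1) (Matrix.entryLinearMap ℝ ℝ 1 0)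

theorem detQ_apply (F : M2) : detQ F = F.det := by
  rw [Matrix.det_fin_two]
  simp [detQ, QuadraticMap.linMulLin_apply]

/-- the anticonformal part -/
def acM (F : M2) : V := ![F 0 0 - F 1 1, F 1 0 + F 0 1]

/-- **Normal form.** -/
theorem ell_normal (h : V → ℝ) (Q : QuadraticForm ℝ M2) (L : M2 →ₗ[ℝ] ℝ) (c : ℝ)
    (hroc : ROC fun F => h (acM F) + Q F + L F)
    (hQ : ∀ x y : ℝ, Q !![x, -y; y, x] = c * (x ^ 2 + y ^ 2)) :
    QC fun F => h (acM F) + Q F + L F := by
  set Q' : QuadraticForm ℝ M2 := Q - c • detQ with hQ'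
  have hQ'a : ∀ F, Q' F = Q F - c * F.det := by
    intro F
    rw [hQ', QuadraticMap.sub_apply, QuadraticMap.smul_apply, detQ_apply, smul_eq_mul]
  set oL : E →ₗ[ℝ] M2 := (Matrix.ofLinearEquiv ℝ : E ≃ₗ[ℝ] M2).toLinearMap with hoL
  have hoLa : ∀ F : E, oL F = of F := fun F => rfl
  set A : LinearMap.BilinForm ℝ M2 := QuadraticMap.associated Q' with hA
  set B : E →L[ℝ] E →L[ℝ] ℝ := LinearMap.toContinuousBilinearMap (A.compl₁₂ oL oL) with hB
  set L' : E →L[ℝ] ℝ := LinearMap.toContinuousLinearMap (E := E) (F' := ℝ) (L ∘ₗ oL) with hL'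
  have hBA : ∀ F G : E, B F G = A (of F) (of G) := fun F G => rfl
  have hBQ : ∀ F : E, B F F = Q' (of F) := fun F =>
    QuadraticMap.associated_eq_self_apply ℝ Q' (of F)
  have hLL : ∀ F : E, L' F = L (of F) := fun F => rfl
  have hsymA : ∀ F G : M2, A F G = A G F := fun F G => by
    rw [hA, QuadraticMap.associated_apply, QuadraticMap.associated_apply, add_comm F G]
    ring_nf
  have hsymB : ∀ F G : E, B F G = B G F := fun F G => hsymA _ _
  have hac : ∀ F : E, acM (of F) = acL F := by
    intro F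
    ext j
    fin_cases j
    · simp [acM, acL_zero]
    · simp [acM, acL_one]
  have hcM : Continuous fun F : M2 => h (acM F) + Q F + L F := hroc.continuous
  have e3 : (fun F : E => h (acM (of F)) + Q (of F) + L (of F))
      = fun F : E => ((h (acL F) + B F F) + c * dt F) + L' F := by
    funext F
    rw [hBQ, hQ'a, hac, det_of, hLL]
    ring
  have hBc : Continuous (fun F : E => B F F) := B.continuous.clm_apply continuous_id
  have hc : Continuous fun F : E => ((h (acL F) + B F F) + c * dt F) + L' F := by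
    have h1 : Continuous fun F : E => h (acM (of F)) + Q (of F) + L (of F) := hcM
    rw [e3] at h1
    exact h1
  set sc : V → E := fun v r l => if r = 0 then (if l = 0 then v 0 else v 1) else 0 with hsc
  have hscc : Continuous sc := by
    refine continuous_pi fun r => continuous_pi fun l => ?_
    simp only [hsc]
    fin_cases r <;> fin_cases l <;> simp <;> fun_prop
  have hacsc : ∀ v, acL (sc v) = v := by
    intro v
    ext j
    fin_cases j
    · simp [acL_zero, hsc]
    · simp [acL_one, hsc]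
  have hgc : Continuous h := by
    have h1 : h = fun v => (((h (acL (sc v)) + B (sc v) (sc v)) + c * dt (sc v)) + L' (sc v))
        - B (sc v) (sc v) - c * dt (sc v) - L' (sc v) := by
      funext v
      rw [hacsc]
      ring
    rw [h1]
    exact (((hc.comp hscc).sub (hBc.comp hscc)).sub
      (continuous_const.mul (continuous_dt.comp hscc))).sub (L'.continuous.comp hscc)
  have hcW : Continuous (fun F : E => h (acL F) + B F F) :=
    (hgc.comp acL.continuous).add hBc
  have hcd : Continuous (fun F : E => c * dt F) := continuous_const.mul continuous_dt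
  refine QC_of_trig hcM ?_
  rw [e3]
  refine QCtrig_add_lin ?_ (hcW.add hcd) L'
  refine QCtrig.add ?_ (QCtrig_dt c) hcW hcd
  -- expansion of the quadratic form
  set ek0 : E := fun r l => if r = l then 1 / 2 else 0 with hek0
  set ek1 : E := fun r l => if r = l then 0 else (if r = 0 then -(1 / 2) else 1 / 2) with hek1
  set ep0 : E := fun r l => if r = l then (if r = 0 then 1 / 2 else -(1 / 2)) else 0 with hep0
  set ep1 : E := fun r l => if r = l then 0 else 1 / 2 with hep1
  have hexpF : ∀ F : E, F = (F 0 0 + F 1 1) • ek0 + (F 1 0 - F 0 1) • ek1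
      + (F 0 0 - F 1 1) • ep0 + (F 1 0 + F 0 1) • ep1 := by
    intro F
    ext r l
    fin_cases r <;> fin_cases l <;> simp [hek0, hek1, hep0, hep1] <;> ring
  have hker : ∀ x y : ℝ, 0 = x ^ 2 * B ek0 ek0 + 2 * (x * y) * B ek0 ek1
      + y ^ 2 * B ek1 ek1 := by
    intro x y
    have e1 : (!![x / 2, -(y / 2); y / 2, x / 2] : M2) = of (x • ek0 + y • ek1) := by
      ext r l
      fin_cases r <;> fin_cases l <;> simp [hek0, hek1] <;> ring
    have h2 : Q' (!![x / 2, -(y / 2); y / 2, x / 2] : M2) = 0 := by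
      rw [hQ'a, hQ, Matrix.det_fin_two]
      simp
      ring
    rw [← h2, e1, ← hBQ]
    simp only [map_add, map_smul, _root_.add_apply, FunLike.coe_smul, Pi.smul_apply, smul_eq_mul]
    rw [hsymB ek1 ek0]
    ring
  have h00 : B ek0 ek0 = 0 := by
    have := hker 1 0
    simp at this
    linarith
  have h11 : B ek1 ek1 = 0 := by
    have := hker 0 1
    simp at this
    linarith
  have h01 : B ek0 ek1 = 0 := by
    have := hker 1 1
    rw [h00, h11] at this
    linarith
  refine ell_main hgc B (fun i j => if i = 0 then (if j = 0 then B ek0 ep0 else B ek0 ep1)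
      else (if j = 0 then B ek1 ep0 else B ek1 ep1)) (B ep0 ep0) (B ep0 ep1)
    (B ep1 ep1) (fun F => ?_) (fun F H hH t ht0 ht1 => ?_)
  · conv_lhs => rw [hexpF F]
    simp only [map_add, map_smul, _root_.add_apply, FunLike.coe_smul, Pi.smul_apply, smul_eq_mul,
      if_true, one_ne_zero, if_false]
    rw [hsymB ek1 ek0, hsymB ep0 ek0, hsymB ep0 ek1, hsymB ep1 ek0, hsymB ep1 ek1, hsymB ep1 ep0,
      h00, h11, h01]
    ring
  · have h1 := hroc.seg (of F) (of H) (by rw [det_of]; exact hH) ht0 ht1
    have f1 := congrFun e3 (F + t • H)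
    have f2 := congrFun e3 F
    have f3 := congrFun e3 (F + H)
    have h2 : ((h (acL (F + t • H)) + B (F + t • H) (F + t • H)) + c * dt (F + t • H))
          + L' (F + t • H)
        ≤ (1 - t) * (((h (acL F) + B F F) + c * dt F) + L' F)
          + t * (((h (acL (F + H)) + B (F + H) (F + H)) + c * dt (F + H)) + L' (F + H)) := by
      rw [← f1, ← f2, ← f3]
      exact h1
    have g1 : L' (F + t • H) = L' F + t * L' H := by rw [map_add, map_smul, smul_eq_mul]
    have g2 : L' (F + H) = L' F + L' H := map_add _ _ _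
    have g3 : dt (F + t • H) = (1 - t) * dt F + t * dt (F + H) := by
      simp only [dt, Pi.add_apply, Pi.smul_apply, smul_eq_mul] at hH ⊢
      linear_combination (t ^ 2 - t) * hH
    rw [g1, g2, g3] at h2
    linarith

/-- **Elliptic pairs plus a polynomial of degree two.** -/
theorem fin_ell (P : M2 →ₗ[ℝ] V) (hP : ∀ K : M2, P K = 0 → K.det = 0 → K = 0) (h : V → ℝ)
    (Q : QuadraticForm ℝ M2) (L : M2 →ₗ[ℝ] ℝ) (c : ℝ) (hQ : ∀ K : M2, P K = 0 → Q K = c * K.det)
    (hroc : ROC fun F => h (P F) + Q F + L F) : QC fun F => h (P F) + Q F + L F := by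
  -- two independent elements of the kernel
  have hfr : 2 ≤ Module.finrank ℝ (LinearMap.ker P) := by
    have h1 := P.finrank_range_add_finrank_ker
    have h2 : Module.finrank ℝ M2 = 4 := by
      rw [Module.finrank_matrix]
      simp
    have h3 : Module.finrank ℝ (LinearMap.range P) ≤ 2 := by
      refine (Submodule.finrank_le _).trans ?_
      simp
    omega
  obtain ⟨X, hX, hX0⟩ : ∃ X : M2, P X = 0 ∧ X ≠ 0 := by
    by_contra hcon
    push Not at hcon
    have h1 : LinearMap.ker P = ⊥ := by
      rw [Submodule.eq_bot_iff]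
      intro x hx
      exact hcon x hx
    rw [h1, finrank_bot] at hfr
    omega
  obtain ⟨Y, hY, hYX⟩ : ∃ Y : M2, P Y = 0 ∧ ∀ s : ℝ, Y ≠ s • X := by
    by_contra hcon
    push Not at hcon
    have h1 : LinearMap.ker P ≤ Submodule.span ℝ {X} := by
      intro y hy
      obtain ⟨s, hs⟩ := hcon y hy
      rw [Submodule.mem_span_singleton]
      exact ⟨s, hs.symm⟩
    have h2 := Submodule.finrank_mono h1
    have h3 := finrank_span_singleton (K := ℝ) hX0
    omega
  have hXd : X.det ≠ 0 := fun hd => hX0 (hP X hX hd)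
  have hXu : IsUnit X.det := isUnit_iff_ne_zero.2 hXd
  set Z : M2 := X⁻¹ * Y with hZ
  have hXZ : X * Z = Y := by
    rw [hZ, ← Matrix.mul_assoc, Matrix.mul_nonsing_inv _ hXu, Matrix.one_mul]
  set lam : ℝ := (Z 0 0 + Z 1 1) / 2 with hlam
  set u : ℝ := (Z 0 0 - Z 1 1) / 2 with hu
  set v : ℝ := Z 0 1 with hv
  set w : ℝ := Z 1 0 with hw
  -- `Z = lam + !![u, v; w, -u]`
  have hμ : 0 < -(u ^ 2 + v * w) := by
    by_contra hcon
    push Not at hcon
    set s := Real.sqrt (u ^ 2 + v * w) with hs
    have hs2 : s ^ 2 = u ^ 2 + v * w := Real.sq_sqrt (by linarith)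
    have hK : P (Y + (s - lam) • X) = 0 := by
      rw [map_add, map_smul, hX, hY, smul_zero, add_zero]
    have hKX : Y + (s - lam) • X = X * (Z + (s - lam) • 1) := by
      rw [Matrix.mul_add, hXZ, Matrix.mul_smul, Matrix.mul_one]
    have hKd : (Y + (s - lam) • X).det = 0 := by
      rw [hKX, Matrix.det_mul]
      have h2 : (Z + (s - lam) • (1 : M2)).det = 0 := by
        rw [Matrix.det_fin_two]
        simp only [Matrix.add_apply, Matrix.smul_apply, Matrix.one_apply_eq, smul_eq_mul, mul_one,
          Matrix.one_apply_ne (show (0 : Fin 2) ≠ 1 by decide),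
          Matrix.one_apply_ne (show (1 : Fin 2) ≠ 0 by decide), mul_zero, add_zero]
        have e0 : Z 0 0 = lam + u := by rw [hlam, hu]; ring
        have e1 : Z 1 1 = lam - u := by rw [hlam, hu]; ring
        rw [e0, e1, ← hv, ← hw]
        linear_combination hs2
      rw [h2, mul_zero]
    have h3 := hP _ hK hKd
    apply hYX (-(s - lam))
    rw [neg_smul]
    exact eq_neg_of_add_eq_zero_left h3
  set μ : ℝ := Real.sqrt (-(u ^ 2 + v * w)) with hμd
  have hμ0 : 0 < μ := Real.sqrt_pos.2 hμ
  have hμ2 : μ ^ 2 = -(u ^ 2 + v * w) := Real.sq_sqrt hμ.le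
  have hw0 : w ≠ 0 := by
    intro h0
    rw [h0] at hμ
    nlinarith [sq_nonneg u]
  set N : M2 := !![1, u / μ; 0, w / μ] with hN
  have hNd : N.det ≠ 0 := by
    rw [hN, Matrix.det_fin_two]
    simp
    exact ⟨hw0, hμ0.ne'⟩
  have hNu : IsUnit N.det := isUnit_iff_ne_zero.2 hNd
  set J : M2 := !![0, -1; 1, 0] with hJ
  have hZN : Z * N = lam • N + μ • (N * J) := by
    have e0 : Z 0 0 = lam + u := by rw [hlam, hu]; ring
    have e1 : Z 1 1 = lam - u := by rw [hlam, hu]; ring
    ext r l
    fin_cases r <;> fin_cases l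
    · simp [Matrix.mul_apply, Fin.sum_univ_two, hN, hJ, e0]
      field_simp
    · simp [Matrix.mul_apply, Fin.sum_univ_two, hN, hJ, e0]
      rw [← hv]
      field_simp
      linear_combination hμ2
    · simp [Matrix.mul_apply, Fin.sum_univ_two, hN, hJ]
      rw [← hw]
      field_simp
    · simp [Matrix.mul_apply, Fin.sum_univ_two, hN, hJ, e1]
      rw [← hw]
      field_simp
      ring
  -- the change of variables
  set T : M2 := X * N with hT
  have hTd : T.det ≠ 0 := by
    rw [hT, Matrix.det_mul]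
    exact mul_ne_zero hXd hNd
  have hTu : IsUnit T.det := isUnit_iff_ne_zero.2 hTd
  set R : M2 →ₗ[ℝ] M2 := (LinearMap.mulRight ℝ N⁻¹) ∘ₗ (LinearMap.mulLeft ℝ T) with hR
  have hRa : ∀ G : M2, R G = T * G * N⁻¹ := fun G => rfl
  have hconf : ∀ x y : ℝ, P (R !![x, -y; y, x]) = 0 := by
    intro x y
    have e1 : (!![x, -y; y, x] : M2) = x • 1 + y • J := by
      ext r l
      fin_cases r <;> fin_cases l <;> simp [hJ]
    have e2 : R !![x, -y; y, x] = x • X + (y / μ) • (Y - lam • X) := by
      have h1 : N * J * N⁻¹ = (1 / μ) • (Z - lam • 1) := by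
        have h2 : N * J = (1 / μ) • (Z * N - lam • N) := by
          rw [hZN, add_sub_cancel_left, smul_smul, one_div, inv_mul_cancel₀ hμ0.ne', one_smul]
        rw [h2, Matrix.smul_mul, Matrix.sub_mul, Matrix.mul_assoc, Matrix.mul_nonsing_inv _ hNu,
          Matrix.mul_one, Matrix.smul_mul, Matrix.mul_nonsing_inv _ hNu]
      have h3 : T * J * N⁻¹ = (1 / μ) • (Y - lam • X) := by
        rw [hT, Matrix.mul_assoc X, Matrix.mul_assoc X, h1, Matrix.mul_smul, Matrix.mul_sub, hXZ,
          Matrix.mul_smul, Matrix.mul_one]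
      have h4 : T * N⁻¹ = X := by
        rw [hT, Matrix.mul_assoc, Matrix.mul_nonsing_inv _ hNu, Matrix.mul_one]
      rw [hRa, e1, Matrix.mul_add, Matrix.add_mul, Matrix.mul_smul, Matrix.mul_one,
        Matrix.smul_mul, h4, Matrix.mul_smul, Matrix.smul_mul, h3, smul_smul]
      congr 2
      ring
    rw [e2, map_add, map_smul, map_smul, map_sub, map_smul, hX, hY]
    simp
  set sec : V → M2 := fun p => !![p 0 / 2, p 1 / 2; p 1 / 2, -(p 0 / 2)] with hsec
  set h' : V → ℝ := fun p => h (P (R (sec p))) with hh'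
  have hfac : ∀ G : M2, P (R (sec (acM G))) = P (R G) := by
    intro G
    have e1 : G = sec (acM G) + !![(G 0 0 + G 1 1) / 2, -((G 1 0 - G 0 1) / 2);
        (G 1 0 - G 0 1) / 2, (G 0 0 + G 1 1) / 2] := by
      ext r l
      fin_cases r <;> fin_cases l <;> simp [hsec, acM] <;> ring
    conv_rhs => rw [e1]
    rw [map_add, map_add, hconf, add_zero]
  have hdetR : ∀ G : M2, (R G).det = X.det * G.det := by
    intro G
    rw [hRa, hT, Matrix.det_mul, Matrix.det_mul, Matrix.det_mul, Matrix.det_nonsing_inv,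
      Ring.inverse_eq_inv']
    field_simp
  have e : (fun G : M2 => h' (acM G) + (Q.comp R) G + (L ∘ₗ R) G) =
      fun G : M2 => (fun F : M2 => h (P F) + Q F + L F) (T * G * N⁻¹) := by
    funext G
    have h5 := hfac G
    simp only [hRa] at h5
    simp only [hh', QuadraticMap.comp_apply, LinearMap.comp_apply, hRa, h5]
  have key : QC fun G => h' (acM G) + (Q.comp R) G + (L ∘ₗ R) G := by
    refine ell_normal h' (Q.comp R) (L ∘ₗ R) (c * X.det) ?_ fun x y => ?_
    · rw [e]
      exact roc_comp hroc T N⁻¹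
    · rw [QuadraticMap.comp_apply, hQ _ (hconf x y), hdetR, Matrix.det_fin_two]
      simp
      ring
  rw [e] at key
  have h2 := QC_comp T⁻¹ N (by
    rw [Matrix.det_nonsing_inv, Ring.inverse_eq_inv']
    exact inv_ne_zero hTd) hNd key
  have e2 : (fun F : M2 => h (P F) + Q F + L F) = fun F : M2 =>
      (fun G : M2 => (fun F : M2 => h (P F) + Q F + L F) (T * G * N⁻¹)) (T⁻¹ * F * N) := by
    funext F
    have e3 : T * (T⁻¹ * F * N) * N⁻¹ = F := by
      rw [← Matrix.mul_assoc, ← Matrix.mul_assoc, Matrix.mul_nonsing_inv _ hTu, Matrix.one_mul,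
        Matrix.mul_assoc, Matrix.mul_nonsing_inv _ hNu, Matrix.mul_one]
    simp only [e3]
  rw [e2]
  exact h2

end Pool.Agent.U515.MR
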