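import Pool.Agent.U515.MR.Sel

/-!
# Functions of one row plus a quadratic form: the certificate
-/

set_option autoImplicit false

open MeasureTheory Set Filter Topology

namespace Pool.Agent.U515.MR

open Pool.Agent.W779.Morrey Pool.Agent.N555.MQ

/-- the admissible pairs of matrices as a subspace -/
def SySub : Submodule ℝ (E × E) where
  carrier := {G | ∀ r, G.1 r 1 = G.2 r 0}
  add_mem' := by
    intro a b ha hb r
    show a.1 r 1 + b.1 r 1 = a.2 r 0 + b.2 r 0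
    rw [ha r, hb r]
  zero_mem' := by
    intro r
    rfl
  smul_mem' := by
    intro c a ha r
    show c * a.1 r 1 = c * a.2 r 0
    rw [ha r]

theorem slemma_sy (P : E →L[ℝ] V) (B Θ : E →L[ℝ] E →L[ℝ] ℝ) (S : V →L[ℝ] V →L[ℝ] ℝ)
    (hpos : ∃ G₀ G₁ : E, (∀ r, G₀ r 1 = G₁ r 0) ∧ 0 < ar P G₀ G₁)
    (hneg : ∃ G₀ G₁ : E, (∀ r, G₀ r 1 = G₁ r 0) ∧ ar P G₀ G₁ < 0)
    (h : ∀ G₀ G₁ : E, (∀ r, G₀ r 1 = G₁ r 0) → ar P G₀ G₁ = 0 → 0 ≤ Qf P B Θ S G₀ G₁) :
    ∃ l : ℝ, ∀ G₀ G₁ : E, (∀ r, G₀ r 1 = G₁ r 0) → 0 ≤ Qf P B Θ S G₀ G₁ + l * ar P G₀ G₁ := by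
  obtain ⟨H0, H1, hs, hH⟩ := hpos
  obtain ⟨K0, K1, hs', hK⟩ := hneg
  obtain ⟨l, hl⟩ := slemma_gen (X := SySub) (fun g => Qf P B Θ S g.1.1 g.1.2)
    (fun g => ar P g.1.1 g.1.2)
    (fun g k => Qf P B Θ S (g.1.1 + k.1.1) (g.1.2 + k.1.2) - Qf P B Θ S g.1.1 g.1.2
      - Qf P B Θ S k.1.1 k.1.2)
    (fun g k => ar P (g.1.1 + k.1.1) (g.1.2 + k.1.2) - ar P g.1.1 g.1.2 - ar P k.1.1 k.1.2)
    (fun g k s => by
      have e1 : (g + s • k).1.1 = g.1.1 + s • k.1.1 := rfl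
      have e2 : (g + s • k).1.2 = g.1.2 + s • k.1.2 := rfl
      simp only [e1, e2, Qf, map_add, map_smul, _root_.add_apply, FunLike.coe_smul, Pi.smul_apply,
        smul_eq_mul]
      ring)
    (fun g k s => by
      have e1 : (g + s • k).1.1 = g.1.1 + s • k.1.1 := rfl
      have e2 : (g + s • k).1.2 = g.1.2 + s • k.1.2 := rfl
      simp only [e1, e2, ar, map_add, map_smul, Pi.add_apply, Pi.smul_apply, smul_eq_mul]
      ring)
    ⟨⟨(H0, H1), hs⟩, hH⟩ ⟨⟨(K0, K1), hs'⟩, hK⟩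
    (fun g hg => h g.1.1 g.1.2 g.2 hg)
  exact ⟨l, fun G₀ G₁ hG => hl ⟨(G₀, G₁), hG⟩⟩

/-- a product of two entries -/
noncomputable def w2 (r l r' l' : Fin 2) : E →L[ℝ] E →L[ℝ] ℝ := (Pool.Agent.N555.MQ.en r l).smulRight (Pool.Agent.N555.MQ.en r' l')

theorem w2_apply (r l r' l' : Fin 2) (F G : E) : w2 r l r' l' F G = F r l * G r' l' := by
  simp [w2, Pool.Agent.N555.MQ.en_apply]

/-- the first row -/
noncomputable def rowL : E →L[ℝ] V := ContinuousLinearMap.proj (R := ℝ) (φ := fun _ : Fin 2 => V) 0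

theorem rowL_apply (F : E) : rowL F = F 0 := rfl

/-- the constant two-form -/
noncomputable def Θr (c : Fin 2 → Fin 2 → ℝ) : E →L[ℝ] E →L[ℝ] ℝ :=
  (4 : ℝ) • w2 1 0 1 1 - ((4 * c 1 0) • w2 0 0 1 0 + (4 * c 1 1) • w2 0 1 1 0
    - (4 * c 0 0) • w2 0 0 1 1 - (4 * c 0 1) • w2 0 1 1 1)

theorem Θr_apply (c : Fin 2 → Fin 2 → ℝ) (F G : E) : Θr c F G =
    4 * (F 1 0 * G 1 1) - (4 * c 1 0 * (F 0 0 * G 1 0) + 4 * c 1 1 * (F 0 1 * G 1 0)
    - 4 * c 0 0 * (F 0 0 * G 1 1) - 4 * c 0 1 * (F 0 1 * G 1 1)) := by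
  simp only [Θr, _root_.sub_apply, _root_.add_apply, FunLike.coe_smul, Pi.smul_apply, smul_eq_mul,
    w2_apply]

/-- values of a bilinear form on the plane -/
theorem S_exp (S : V →L[ℝ] V →L[ℝ] ℝ) (hS : ∀ v w, S v w = S w v) (v : V) :
    S v v = v 0 ^ 2 * S (Pi.single 0 1) (Pi.single 0 1)
      + 2 * (v 0 * v 1) * S (Pi.single 0 1) (Pi.single 1 1)
      + v 1 ^ 2 * S (Pi.single 1 1) (Pi.single 1 1) := by
  have hv : v = v 0 • (Pi.single 0 1 : V) + v 1 • (Pi.single 1 1 : V) := by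
    ext j
    fin_cases j <;> simp
  conv_lhs => rw [hv]
  have h10 := hS (Pi.single 1 1) (Pi.single 0 1)
  simp only [map_add, map_smul, _root_.add_apply, FunLike.coe_smul, Pi.smul_apply, smul_eq_mul,
    h10]
  ring

/-- the algebraic statement for one row -/
theorem row_alg (B : E →L[ℝ] E →L[ℝ] ℝ) (c : Fin 2 → Fin 2 → ℝ) (r0 r1 r2 : ℝ)
    (hB : ∀ F : E, B F F = F 1 0 ^ 2 + F 1 1 ^ 2
      + 2 * (c 0 0 * F 1 0 * F 0 0 + c 0 1 * F 1 0 * F 0 1 + c 1 0 * F 1 1 * F 0 0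
        + c 1 1 * F 1 1 * F 0 1)
      + (r0 * F 0 0 ^ 2 + 2 * r1 * F 0 0 * F 0 1 + r2 * F 0 1 ^ 2))
    (S : V →L[ℝ] V →L[ℝ] ℝ) (hS : ∀ v w, S v w = S w v)
    (hn : ∀ H : E, dt H = 0 → 0 ≤ S (rowL H) (rowL H) + 2 * B H H)
    (G₀ G₁ : E) (hs : ∀ r, G₀ r 1 = G₁ r 0) (h0 : ar rowL G₀ G₁ = 0) :
    0 ≤ Qf rowL B (Θr c) S G₀ G₁ := by
  set a := S (Pi.single 0 1) (Pi.single 0 1) + 2 * r0 with ha
  set b := S (Pi.single 0 1) (Pi.single 1 1) + 2 * r1 with hb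
  set d := S (Pi.single 1 1) (Pi.single 1 1) + 2 * r2 with hd
  -- the form of the row
  have hg : ∀ x y : ℝ, 2 * (c 0 0 * x ^ 2 + (c 0 1 + c 1 0) * (x * y) + c 1 1 * y ^ 2) ^ 2 ≤
      (x ^ 2 + y ^ 2) * (a * x ^ 2 + 2 * b * (x * y) + d * y ^ 2) := by
    intro x y
    set τ := c 0 0 * x ^ 2 + (c 0 1 + c 1 0) * (x * y) + c 1 1 * y ^ 2 with hτ
    set N := x ^ 2 + y ^ 2 with hN
    set g := a * x ^ 2 + 2 * b * (x * y) + d * y ^ 2 with hg
    have hN0 : 0 ≤ N := by positivity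
    have h1 := hn (fun r l => (if r = 0 then N else -τ) * (if l = 0 then x else y)) (by
      simp only [dt, if_true, one_ne_zero, if_false]
      ring)
    rw [hB, S_exp S hS] at h1
    simp only [rowL_apply, if_true, one_ne_zero, if_false] at h1
    have h2 : 0 ≤ N * (N * g - 2 * τ ^ 2) := by
      refine h1.trans (le_of_eq ?_)
      simp only [hg, ha, hb, hd]
      rw [hτ, hN]
      ring
    rcases hN0.eq_or_lt with h3 | h3
    · have hx : x = 0 := by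
        have := sq_nonneg x
        have := sq_nonneg y
        have hx2 : x ^ 2 = 0 := by rw [hN] at h3; linarith
        exact pow_eq_zero_iff (two_ne_zero) |>.1 hx2
      have hy : y = 0 := by
        have := sq_nonneg x
        have := sq_nonneg y
        have hx2 : y ^ 2 = 0 := by rw [hN] at h3; linarith
        exact pow_eq_zero_iff (two_ne_zero) |>.1 hx2
      simp [hτ, hg, hx, hy]
    · have h4 : 0 ≤ N * g - 2 * τ ^ 2 := by
        by_contra hcon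
        push Not at hcon
        have := mul_neg_of_pos_of_neg h3 hcon
        linarith
      linarith
  have hs0 := hs 0
  have hs1 := hs 1
  have hD : G₀ 0 0 * G₁ 0 1 = G₀ 0 1 * G₀ 0 1 := by
    simp only [ar, rowL_apply] at h0
    rw [← hs0] at h0
    linarith
  -- the total
  set x := G₀ 0 0 with hx
  set y := G₀ 0 1 with hy
  set z := G₁ 0 1 with hz
  set T := c 0 0 * x + (c 0 1 + c 1 0) * y + c 1 1 * z with hT
  have htot : Qf rowL B (Θr c) S G₀ G₁ =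
      (a * x ^ 2 + 2 * b * (x * y) + d * y ^ 2) + (a * y ^ 2 + 2 * b * (y * z) + d * z ^ 2)
      + 2 * (G₀ 1 0 + G₁ 1 1 + T) ^ 2 - 2 * T ^ 2 := by
    unfold Qf
    rw [hB, hB, S_exp S hS (rowL G₀), S_exp S hS (rowL G₁), Θr_apply, Θr_apply]
    simp only [rowL_apply]
    rw [← hs0, ← hs1, ← hx, ← hy, ← hz]
    simp only [ha, hb, hd, hT]
    ring
  rw [htot]
  have hmain : 2 * T ^ 2 ≤ (a * x ^ 2 + 2 * b * (x * y) + d * y ^ 2)
      + (a * y ^ 2 + 2 * b * (y * z) + d * z ^ 2) := by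
    by_cases hx0 : x = 0
    · by_cases hz0 : z = 0
      · have hy0 : y = 0 := by
          have : y * y = 0 := by rw [← hD, hx0]; ring
          exact mul_self_eq_zero.1 this
        simp [hT, hx0, hy0, hz0]
      · have h1 := hg y z
        have e1 : c 0 0 * y ^ 2 + (c 0 1 + c 1 0) * (y * z) + c 1 1 * z ^ 2 = z * T := by
          rw [hT]
          linear_combination (-(c 0 0)) * hD
        have e2 : z ^ 2 * (a * x ^ 2 + 2 * b * (x * y) + d * y ^ 2) =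
            y ^ 2 * (a * y ^ 2 + 2 * b * (y * z) + d * z ^ 2) := by
          linear_combination (a * (x * z + y * y) + 2 * b * (y * z)) * hD
        rw [e1] at h1
        have h3 : 0 < z ^ 2 := by positivity
        have h4 : z ^ 2 * (2 * T ^ 2) ≤ z ^ 2 * ((a * x ^ 2 + 2 * b * (x * y) + d * y ^ 2)
            + (a * y ^ 2 + 2 * b * (y * z) + d * z ^ 2)) := by
          rw [mul_add, e2]
          calc z ^ 2 * (2 * T ^ 2) = 2 * (z * T) ^ 2 := by ring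
            _ ≤ (y ^ 2 + z ^ 2) * (a * y ^ 2 + 2 * b * (y * z) + d * z ^ 2) := h1
            _ = _ := by ring
        exact le_of_mul_le_mul_left h4 h3
    · have h1 := hg x y
      have e1 : c 0 0 * x ^ 2 + (c 0 1 + c 1 0) * (x * y) + c 1 1 * y ^ 2 = x * T := by
        rw [hT]
        linear_combination (-(c 1 1)) * hD
      have e2 : x ^ 2 * (a * y ^ 2 + 2 * b * (y * z) + d * z ^ 2) =
          y ^ 2 * (a * x ^ 2 + 2 * b * (x * y) + d * y ^ 2) := by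
        linear_combination (d * (x * z + y * y) + 2 * b * (x * y)) * hD
      rw [e1] at h1
      have h3 : 0 < x ^ 2 := by positivity
      have h4 : x ^ 2 * (2 * T ^ 2) ≤ x ^ 2 * ((a * x ^ 2 + 2 * b * (x * y) + d * y ^ 2)
          + (a * y ^ 2 + 2 * b * (y * z) + d * z ^ 2)) := by
        rw [mul_add, e2]
        calc x ^ 2 * (2 * T ^ 2) = 2 * (x * T) ^ 2 := by ring
          _ ≤ (x ^ 2 + y ^ 2) * (a * x ^ 2 + 2 * b * (x * y) + d * y ^ 2) := h1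
          _ = _ := by ring
      exact le_of_mul_le_mul_left h4 h3
  nlinarith [sq_nonneg (G₀ 1 0 + G₁ 1 1 + T)]

/-- **Functions of one row plus a quadratic form, normal form.** -/
theorem row_main {h : V → ℝ} (hc : Continuous h) (B : E →L[ℝ] E →L[ℝ] ℝ) (c : Fin 2 → Fin 2 → ℝ)
    (r0 r1 r2 : ℝ)
    (hB : ∀ F : E, B F F = F 1 0 ^ 2 + F 1 1 ^ 2
      + 2 * (c 0 0 * F 1 0 * F 0 0 + c 0 1 * F 1 0 * F 0 1 + c 1 0 * F 1 1 * F 0 0
        + c 1 1 * F 1 1 * F 0 1)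
      + (r0 * F 0 0 ^ 2 + 2 * r1 * F 0 0 * F 0 1 + r2 * F 0 1 ^ 2))
    (hroc : ∀ F H : E, dt H = 0 → ∀ t : ℝ, 0 ≤ t → t ≤ 1 →
      h ((F + t • H) 0) + B (F + t • H) (F + t • H)
        ≤ (1 - t) * (h (F 0) + B F F) + t * (h ((F + H) 0) + B (F + H) (F + H))) :
    QCtrig (fun F : E => h (F 0) + B F F) := by
  have hpos : ∃ G₀ G₁ : E, (∀ r, G₀ r 1 = G₁ r 0) ∧ 0 < ar rowL G₀ G₁ := by
    refine ⟨fun r l => if l = 0 then 1 else 0, fun r l => if l = 1 then 1 else 0, ?_, ?_⟩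
    · intro r
      simp
    · simp [ar, rowL_apply]
  have hneg : ∃ G₀ G₁ : E, (∀ r, G₀ r 1 = G₁ r 0) ∧ ar rowL G₀ G₁ < 0 := by
    refine ⟨fun r l => if l = 0 then 1 else 0, fun r l => if l = 1 then -1 else 0, ?_, ?_⟩
    · intro r
      simp
    · simp [ar, rowL_apply]
  refine gen_main (P := rowL) hc B (Θr c) (fun v => ⟨fun _ => v, rfl⟩) hpos hneg
    (fun S hS hn => slemma_sy rowL B (Θr c) S hpos hneg
      (fun G₀ G₁ hs h0 => row_alg B c r0 r1 r2 hB S hS hn G₀ G₁ hs h0)) hroc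

end Pool.Agent.U515.MR
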