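import Pool.Agent.U515.MR.Cert
import Pool.Agent.N555.MQ.Diag

/-!
# The S-lemma for general forms, selection of multipliers, and mollification
-/

set_option autoImplicit false

open MeasureTheory Set Filter Topology

namespace Pool.Agent.U515.MR

open Pool.Agent.W779.Morrey Pool.Agent.N555.MQ

/-- The two-point form of the S-lemma. -/
theorem two_point_gen {X : Type*} [AddCommGroup X] [Module ℝ X] (q D : X → ℝ) (bq bD : X → X → ℝ)
    (hq : ∀ (H K : X) (s : ℝ), q (H + s • K) = q H + s * bq H K + s ^ 2 * q K)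
    (hD : ∀ (H K : X) (s : ℝ), D (H + s • K) = D H + s * bD H K + s ^ 2 * D K)
    (h : ∀ H : X, D H = 0 → 0 ≤ q H) (H K : X)
    (hH : 0 < D H) (hK : D K < 0) : 0 ≤ D H * q K - D K * q H := by
  set a := D K with ha
  set c := D H with hc
  set m := bD H K with hm
  have hdt : ∀ s : ℝ, D (H + s • K) = c + m * s + a * s ^ 2 := by
    intro s
    rw [hD]
    ring
  set Δ := m ^ 2 - 4 * a * c with hΔ
  have hDpos : 0 ≤ Δ := by nlinarith [sq_nonneg m, mul_pos (neg_pos.2 hK) hH]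
  set r := Real.sqrt Δ with hr
  have hr2 : r ^ 2 = Δ := Real.sq_sqrt hDpos
  have hr0 : 0 ≤ r := Real.sqrt_nonneg Δ
  have hrm : m < r ∧ -m < r := by
    have h1 : m ^ 2 < r ^ 2 := by
      rw [hr2, hΔ]
      nlinarith [mul_pos (neg_pos.2 hK) hH]
    have h2 := abs_lt_of_sq_lt_sq h1 hr0
    have h3 := abs_lt.1 (by simpa using h2 : |m| < r)
    exact ⟨h3.2, by linarith [h3.1]⟩
  have ha0 : a ≠ 0 := hK.ne
  set s1 := (-m - r) / (2 * a) with hs1
  set s2 := (-m + r) / (2 * a) with hs2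
  have e1 : 2 * a * s1 = -m - r := by rw [hs1]; field_simp
  have e2 : 2 * a * s2 = -m + r := by rw [hs2]; field_simp
  have p1 : 0 < s1 := by
    by_contra hcon
    push Not at hcon
    have : 0 ≤ 2 * a * s1 := by nlinarith
    linarith [hrm.2]
  have p2 : s2 < 0 := by
    by_contra hcon
    push Not at hcon
    have : 2 * a * s2 ≤ 0 := by nlinarith
    linarith [hrm.1]
  have z1 : D (H + s1 • K) = 0 := by
    rw [hdt]
    have : 4 * a * (c + m * s1 + a * s1 ^ 2) = (2 * a * s1 + m) ^ 2 - Δ := by rw [hΔ]; ring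
    rw [e1] at this
    have h0 : 4 * a * (c + m * s1 + a * s1 ^ 2) = 0 := by rw [this, ← hr2]; ring
    rcases mul_eq_zero.1 h0 with h1 | h1
    · exfalso; apply ha0; linarith
    · exact h1
  have z2 : D (H + s2 • K) = 0 := by
    rw [hdt]
    have : 4 * a * (c + m * s2 + a * s2 ^ 2) = (2 * a * s2 + m) ^ 2 - Δ := by rw [hΔ]; ring
    rw [e2] at this
    have h0 : 4 * a * (c + m * s2 + a * s2 ^ 2) = 0 := by rw [this, ← hr2]; ring
    rcases mul_eq_zero.1 h0 with h1 | h1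
    · exfalso; apply ha0; linarith
    · exact h1
  have hprod : a * (s1 * s2) = c := by
    have h4 : 4 * a * (a * (s1 * s2)) = 4 * a * c := by
      have : 4 * a * (a * (s1 * s2)) = (2 * a * s1) * (2 * a * s2) := by ring
      rw [this, e1, e2]
      have : (-m - r) * (-m + r) = m ^ 2 - r ^ 2 := by ring
      rw [this, hr2, hΔ]; ring
    exact mul_left_cancel₀ (by simpa using ha0 : (4 * a : ℝ) ≠ 0) h4
  have q1 := h _ z1
  have q2 := h _ z2
  rw [hq] at q1 q2
  have q3 : 0 ≤ (s1 - s2) * (q H - s1 * s2 * q K) := by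
    have w1 := mul_nonneg (neg_pos.2 p2).le q1
    have w2 := mul_nonneg p1.le q2
    nlinarith
  have q4 : 0 ≤ q H - s1 * s2 * q K := by
    by_contra hcon
    push Not at hcon
    have : (s1 - s2) * (q H - s1 * s2 * q K) < 0 := mul_neg_of_pos_of_neg (by linarith) hcon
    linarith
  have q5 := mul_nonneg (neg_pos.2 hK).le q4
  have q6 : -a * (q H - s1 * s2 * q K) = c * q K - a * q H := by
    rw [← hprod]; ring
  rw [q6] at q5
  exact q5

/-- The S-lemma: a quadratic form which is nonnegative on the zeros of an indefinite one has a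
multiplier. -/
theorem slemma_gen {X : Type*} [AddCommGroup X] [Module ℝ X] (q D : X → ℝ) (bq bD : X → X → ℝ)
    (hq : ∀ (H K : X) (s : ℝ), q (H + s • K) = q H + s * bq H K + s ^ 2 * q K)
    (hD : ∀ (H K : X) (s : ℝ), D (H + s • K) = D H + s * bD H K + s ^ 2 * D K)
    (hpos : ∃ H, 0 < D H) (hneg : ∃ K, D K < 0)
    (h : ∀ H : X, D H = 0 → 0 ≤ q H) : ∃ l : ℝ, ∀ H : X, 0 ≤ q H + l * D H := by
  set S : Set ℝ := {y | ∃ H : X, 0 < D H ∧ y = -(q H) / D H} with hS
  have hub : ∀ K : X, D K < 0 → ∀ y ∈ S, y ≤ q K / (-D K) := by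
    rintro K hK y ⟨H, hH, rfl⟩
    rw [div_le_div_iff₀ hH (neg_pos.2 hK)]
    have := two_point_gen q D bq bD hq hD h H K hH hK
    nlinarith
  obtain ⟨H1, hH1⟩ := hpos
  obtain ⟨K0, hK0⟩ := hneg
  have hne : S.Nonempty := ⟨_, H1, hH1, rfl⟩
  have hbdd : BddAbove S := ⟨_, fun y hy => hub _ hK0 y hy⟩
  refine ⟨sSup S, fun H => ?_⟩
  rcases lt_trichotomy (D H) 0 with hH | hH | hH
  · have h1 := csSup_le hne (hub H hH)
    rw [le_div_iff₀ (neg_pos.2 hH)] at h1
    linarith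
  · rw [hH, mul_zero, add_zero]
    exact h H hH
  · have h1 : -(q H) / D H ≤ sSup S := le_csSup hbdd ⟨H, hH, rfl⟩
    rw [div_le_iff₀ hH] at h1
    linarith

/-- the pairs of matrices which occur as partial derivatives of a gradient -/
def Sy : Type := {G : E × E // ∀ r, G.1 r 1 = G.2 r 0}

/-- the quadratic form of the second derivatives of the energy, with a constant two-form -/
noncomputable def Qf (P : E →L[ℝ] V) (B Θ : E →L[ℝ] E →L[ℝ] ℝ) (S : V →L[ℝ] V →L[ℝ] ℝ)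
    (G₀ G₁ : E) : ℝ :=
  S (P G₀) (P G₀) + S (P G₁) (P G₁) + 2 * B G₀ G₀ + 2 * B G₁ G₁ + (Θ G₀ G₁ - Θ G₁ G₀)

/-- **Selection of the multipliers.** -/
theorem sel_gen {h : V → ℝ} (hh : ContDiff ℝ 2 h) (P : E →L[ℝ] V) (B Θ : E →L[ℝ] E →L[ℝ] ℝ)
    (hpos : ∃ G₀ G₁ : E, (∀ r, G₀ r 1 = G₁ r 0) ∧ 0 < ar P G₀ G₁)
    (hneg : ∃ G₀ G₁ : E, (∀ r, G₀ r 1 = G₁ r 0) ∧ ar P G₀ G₁ < 0)
    (hp : ∀ v : V, ∃ l : ℝ, ∀ G₀ G₁ : E, (∀ r, G₀ r 1 = G₁ r 0) →
      0 ≤ Qf P B Θ (fderiv ℝ (fderiv ℝ h) v) G₀ G₁ + l * ar P G₀ G₁) :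
    QCtrig (fun F : E => h (P F) + B F F) := by
  have hP1 : ContDiff ℝ 1 (fderiv ℝ h) := hh.fderiv_right (by norm_num)
  have hHc : Continuous (fderiv ℝ (fderiv ℝ h)) := hP1.continuous_fderiv (by norm_num)
  choose L hL using hp
  set I := {G : E × E // (∀ r, G.1 r 1 = G.2 r 0) ∧ 0 < ar P G.1 G.2} with hI
  set f : I → V → ℝ := fun i v =>
    -(Qf P B Θ (fderiv ℝ (fderiv ℝ h) v) i.1.1 i.1.2) / ar P i.1.1 i.1.2 with hf
  have hQc : ∀ G₀ G₁ : E, Continuous (fun v => Qf P B Θ (fderiv ℝ (fderiv ℝ h) v) G₀ G₁) := by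
    intro G₀ G₁
    unfold Qf
    have c1 : ∀ G : E, Continuous (fun v => fderiv ℝ (fderiv ℝ h) v (P G) (P G)) := fun G =>
      (hHc.clm_apply continuous_const).clm_apply continuous_const
    exact ((((c1 G₀).add (c1 G₁)).add continuous_const).add continuous_const).add continuous_const
  have hfc : ∀ i, Continuous (f i) := by
    intro i
    simp only [hf]
    exact Continuous.div_const (hQc _ _).neg _
  have hfL : ∀ v i, f i v ≤ L v := by
    intro v i
    simp only [hf]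
    rw [div_le_iff₀ i.2.2]
    have := hL v i.1.1 i.1.2 i.2.1
    linarith
  have hbdd : ∀ v, BddAbove (range fun i => f i v) := by
    intro v
    refine ⟨L v, ?_⟩
    rintro y ⟨i, rfl⟩
    exact hfL v i
  obtain ⟨H0, H1, hs, hH⟩ := hpos
  obtain ⟨K0, K1, hs', hK⟩ := hneg
  set i0 : I := ⟨(H0, H1), hs, hH⟩ with hi0
  have : Nonempty I := ⟨i0⟩
  set ℓ : V → ℝ := fun v => ⨆ i, f i v with hℓ
  have hmeas : Measurable ℓ :=
    (lowerSemicontinuous_ciSup hbdd fun i => (hfc i).lowerSemicontinuous).measurable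
  have hℓL : ∀ v, ℓ v ≤ L v := fun v => ciSup_le fun i => hfL v i
  have hℓf : ∀ v i, f i v ≤ ℓ v := fun v i => le_ciSup (hbdd v) i
  have hθ : ContDiff ℝ 1 (fun F : E => Θ F) := Θ.contDiff
  refine QCtrig_of_mcert (θ := fun F : E => Θ F) (contDiff_WL hh P B) hθ P hmeas ?_ ?_
  · intro R
    have c1 : Continuous (fun v => Qf P B Θ (fderiv ℝ (fderiv ℝ h) v) K0 K1 / (-ar P K0 K1)) :=
      (hQc _ _).div_const _
    obtain ⟨C1, hC1⟩ := (isCompact_closedBall (0 : V) R).exists_bound_of_continuousOn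
      (hfc i0).continuousOn
    obtain ⟨C2, hC2⟩ := (isCompact_closedBall (0 : V) R).exists_bound_of_continuousOn
      c1.continuousOn
    refine ⟨max C1 C2, fun v hv => ?_⟩
    have hv' : v ∈ Metric.closedBall (0 : V) R := by rwa [mem_closedBall_zero_iff]
    have b1 := hC1 v hv'
    have b2 := hC2 v hv'
    rw [Real.norm_eq_abs] at b1 b2
    rw [abs_le]
    constructor
    · have := (abs_le.1 b1).1
      have h2 := hℓf v i0
      have h3 := le_max_left C1 C2
      linarith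
    · have h2 := hL v K0 K1 hs'
      have h3 := hℓL v
      have h4 := (abs_le.1 b2).2
      have h5 := le_max_right C1 C2
      have h6 : L v ≤ Qf P B Θ (fderiv ℝ (fderiv ℝ h) v) K0 K1 / (-ar P K0 K1) := by
        rw [le_div_iff₀ (neg_pos.2 hK)]
        linarith
      linarith
  · intro F G₀ G₁ hsym
    have e1 : fderiv ℝ (fun F : E => Θ F) F = Θ := Θ.fderiv
    rw [second_WL hh, second_WL hh, e1]
    have hval : fderiv ℝ (fderiv ℝ h) (P F) (P G₀) (P G₀) + 2 * B G₀ G₀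
        + (fderiv ℝ (fderiv ℝ h) (P F) (P G₁) (P G₁) + 2 * B G₁ G₁) + (Θ G₀ G₁ - Θ G₁ G₀)
        = Qf P B Θ (fderiv ℝ (fderiv ℝ h) (P F)) G₀ G₁ := by
      unfold Qf
      ring
    rw [hval]
    rcases lt_or_ge 0 (ar P G₀ G₁) with hpos' | hnp
    · have h1 := hℓf (P F) ⟨(G₀, G₁), hsym, hpos'⟩
      simp only [hf] at h1
      rw [div_le_iff₀ hpos'] at h1
      linarith
    · have h1 := hL (P F) G₀ G₁ hsym
      have h2 : L (P F) * ar P G₀ G₁ ≤ ℓ (P F) * ar P G₀ G₁ :=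
        mul_le_mul_of_nonpos_right (hℓL (P F)) hnp
      linarith

/-- **Functions of two linear functionals plus a quadratic form.** -/
theorem gen_main {h : V → ℝ} (hc : Continuous h) (P : E →L[ℝ] V) (B Θ : E →L[ℝ] E →L[ℝ] ℝ)
    (hsurj : Function.Surjective P)
    (hpos : ∃ G₀ G₁ : E, (∀ r, G₀ r 1 = G₁ r 0) ∧ 0 < ar P G₀ G₁)
    (hneg : ∃ G₀ G₁ : E, (∀ r, G₀ r 1 = G₁ r 0) ∧ ar P G₀ G₁ < 0)
    (halg : ∀ S : V →L[ℝ] V →L[ℝ] ℝ, (∀ v w, S v w = S w v) →
      (∀ H : E, dt H = 0 → 0 ≤ S (P H) (P H) + 2 * B H H) →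
      ∃ l : ℝ, ∀ G₀ G₁ : E, (∀ r, G₀ r 1 = G₁ r 0) →
        0 ≤ Qf P B Θ S G₀ G₁ + l * ar P G₀ G₁)
    (hroc : ∀ F H : E, dt H = 0 → ∀ t : ℝ, 0 ≤ t → t ≤ 1 →
      h (P (F + t • H)) + B (F + t • H) (F + t • H)
        ≤ (1 - t) * (h (P F) + B F F) + t * (h (P (F + H)) + B (F + H) (F + H))) :
    QCtrig (fun F : E => h (P F) + B F F) := by
  -- the inequality for `h`
  have hh : ∀ H : E, dt H = 0 → ∀ t : ℝ, 0 ≤ t → t ≤ 1 → ∀ v : V,
      h (v + t • P H) ≤ (1 - t) * h v + t * h (v + P H) + t * (1 - t) * B H H := by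
    intro H hH t ht0 ht1 v
    obtain ⟨F, rfl⟩ := hsurj v
    have h1 := hroc F H hH t ht0 ht1
    simp only [map_add, map_smul, _root_.add_apply, FunLike.coe_smul, Pi.smul_apply,
      smul_eq_mul] at h1
    linarith
  refine QCtrig_limit (Wn := fun n F => hm h n (P F) + B F F) (fun n => ?_) (fun n => ?_)
    (fun F => ?_) (fun R => ?_)
  · have hsm := hm_contDiff hc n
    refine sel_gen hsm P B Θ hpos hneg fun v => halg _ (fun a b => ?_) (fun H hH => ?_)
    · exact (hsm.contDiffAt (x := v)).isSymmSndFDerivAt (by simp) a b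
    · obtain ⟨F, rfl⟩ := hsurj v
      rw [← second_WL hsm P B F H]
      refine second_nonneg (contDiff_WL hsm P B) _ _ fun s u t ht0 ht1 => ?_
      have hdu : dt (u • H) = 0 := by
        have : dt (u • H) = u ^ 2 * dt H := by
          simp only [dt, Pi.smul_apply, smul_eq_mul]; ring
        rw [this, hH, mul_zero]
      have h2 := hm_ineq hc (fun v => hh (u • H) hdu t ht0 ht1 v) n (P (F + s • H))
      simp only [map_add, map_smul, _root_.add_apply, FunLike.coe_smul, Pi.smul_apply,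
        smul_eq_mul] at h2 ⊢
      linarith
  · exact (contDiff_WL (hm_contDiff hc n) P B).continuous
  · exact (hm_tendsto hc (P F)).add tendsto_const_nhds
  · obtain ⟨C1, hC1⟩ := (isCompact_closedBall (0 : V)
      (‖P‖ * R + 1)).exists_bound_of_continuousOn hc.continuousOn
    have hBc : Continuous (fun F : E => B F F) := B.continuous.clm_apply continuous_id
    obtain ⟨C2, hC2⟩ := (isCompact_closedBall (0 : E) R).exists_bound_of_continuousOn
      hBc.continuousOn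
    refine ⟨C1 + C2, fun n F hF => ?_⟩
    have hcF : ‖P F‖ ≤ ‖P‖ * R :=
      (P.le_opNorm F).trans (mul_le_mul_of_nonneg_left hF (norm_nonneg _))
    have b1 : |hm h n (P F)| ≤ C1 := hm_bound hc (fun x hx => by
      have := hC1 x (by rwa [mem_closedBall_zero_iff])
      rwa [Real.norm_eq_abs] at this) n hcF
    have b2 : |B F F| ≤ C2 := by
      have := hC2 F (by rwa [mem_closedBall_zero_iff])
      rwa [Real.norm_eq_abs] at this
    exact (abs_add_le _ _).trans (add_le_add b1 b2)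

end Pool.Agent.U515.MR
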